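import Mathlib

/-!
Averages of bounded families of operators over an amenable group, and square roots of positive
invertible operators.
-/

set_option autoImplicit false

open scoped InnerProductSpace ComplexConjugate ComplexOrder

noncomputable section

namespace TH140.KC

/-- Bounded real function. -/
def Bdd {G : Type} (f : G → ℝ) : Prop := ∃ C : ℝ, ∀ x, |f x| ≤ C

/-- `m` is a left invariant mean on the bounded real functions on the group `G`. -/
structure IsMean {G : Type} [Group G] (m : (G → ℝ) → ℝ) : Prop where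
  add : ∀ f g : G → ℝ, Bdd f → Bdd g → m (fun x => f x + g x) = m f + m g
  smul : ∀ (r : ℝ) (f : G → ℝ), Bdd f → m (fun x => r * f x) = r * m f
  nonneg : ∀ f : G → ℝ, Bdd f → (∀ x, 0 ≤ f x) → 0 ≤ m f
  one : m (fun _ => 1) = 1
  inv : ∀ (f : G → ℝ) (g : G), Bdd f → m (fun x => f (g * x)) = m f

/-- The (discrete) group `G` is amenable. -/
def Amenable (G : Type) [Group G] : Prop := ∃ m : (G → ℝ) → ℝ, IsMean m

section mean

variable {G : Type}

theorem Bdd.add {f g : G → ℝ} (hf : Bdd f) (hg : Bdd g) : Bdd (fun x => f x + g x) := by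
  obtain ⟨C, hC⟩ := hf
  obtain ⟨D, hD⟩ := hg
  exact ⟨C + D, fun x => (abs_add_le _ _).trans (add_le_add (hC x) (hD x))⟩

theorem Bdd.smul {f : G → ℝ} (r : ℝ) (hf : Bdd f) : Bdd (fun x => r * f x) := by
  obtain ⟨C, hC⟩ := hf
  exact ⟨|r| * C, fun x => by rw [abs_mul]; exact mul_le_mul_of_nonneg_left (hC x) (abs_nonneg r)⟩

theorem bdd_const (G : Type) (r : ℝ) : Bdd (fun _ : G => r) := ⟨|r|, fun _ => le_rfl⟩

/-- Bounded complex function. -/
def CBdd (F : G → ℂ) : Prop := ∃ C : ℝ, ∀ x, ‖F x‖ ≤ C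

theorem CBdd.re {F : G → ℂ} (h : CBdd F) : Bdd (fun x => (F x).re) := by
  obtain ⟨C, hC⟩ := h
  exact ⟨C, fun x => (Complex.abs_re_le_norm _).trans (hC x)⟩

theorem CBdd.im {F : G → ℂ} (h : CBdd F) : Bdd (fun x => (F x).im) := by
  obtain ⟨C, hC⟩ := h
  exact ⟨C, fun x => (Complex.abs_im_le_norm _).trans (hC x)⟩

variable [Group G] {m : (G → ℝ) → ℝ}

theorem IsMean.const (h : IsMean m) (r : ℝ) : m (fun _ => r) = r := by
  have := h.smul r (fun _ => 1) (bdd_const G 1)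
  simpa [h.one] using this

theorem IsMean.mono (h : IsMean m) {f g : G → ℝ} (hf : Bdd f) (hg : Bdd g) (hfg : ∀ x, f x ≤ g x) :
    m f ≤ m g := by
  have h1 := h.nonneg (fun x => g x + (-1) * f x) (hg.add (hf.smul (-1)))
    (fun x => by have := hfg x; linarith)
  rw [h.add g (fun x => (-1) * f x) hg (hf.smul (-1)), h.smul (-1) f hf] at h1
  linarith

theorem IsMean.absle (h : IsMean m) {f : G → ℝ} {C : ℝ} (hf : ∀ x, |f x| ≤ C) : |m f| ≤ C := by
  have hb : Bdd f := ⟨C, hf⟩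
  rw [abs_le]
  constructor
  · have := h.mono (bdd_const G (-C)) hb (fun x => (abs_le.1 (hf x)).1)
    rwa [h.const] at this
  · have := h.mono hb (bdd_const G C) (fun x => (abs_le.1 (hf x)).2)
    rwa [h.const] at this

/-- The mean of a complex function. -/
def mc (m : (G → ℝ) → ℝ) (F : G → ℂ) : ℂ := ⟨m (fun x => (F x).re), m (fun x => (F x).im)⟩

theorem mc_add (h : IsMean m) {F F' : G → ℂ} (hF : CBdd F) (hF' : CBdd F') :
    mc m (fun x => F x + F' x) = mc m F + mc m F' := by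
  apply Complex.ext
  · simp only [mc, Complex.add_re]
    exact h.add _ _ hF.re hF'.re
  · simp only [mc, Complex.add_im]
    exact h.add _ _ hF.im hF'.im

theorem mc_smul (h : IsMean m) (z : ℂ) {F : G → ℂ} (hF : CBdd F) :
    mc m (fun x => z * F x) = z * mc m F := by
  apply Complex.ext
  · simp only [mc, Complex.mul_re]
    have e : (fun x => z.re * (F x).re - z.im * (F x).im) =
        fun x => z.re * (F x).re + (-z.im) * (F x).im := by
      funext x; ring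
    rw [e, h.add _ _ (hF.re.smul _) (hF.im.smul _), h.smul _ _ hF.re, h.smul _ _ hF.im]
    ring
  · simp only [mc, Complex.mul_im]
    rw [h.add _ _ (hF.im.smul _) (hF.re.smul _), h.smul _ _ hF.re, h.smul _ _ hF.im]

theorem mc_conj (h : IsMean m) {F : G → ℂ} (hF : CBdd F) :
    mc m (fun x => conj (F x)) = conj (mc m F) := by
  apply Complex.ext
  · simp only [mc, Complex.conj_re]
  · simp only [mc, Complex.conj_im]
    have e : (fun x => -(F x).im) = fun x => (-1) * (F x).im := by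
      funext x; ring
    rw [e, h.smul _ _ hF.im]
    ring

theorem mc_norm (h : IsMean m) {F : G → ℂ} {C : ℝ} (hF : ∀ x, ‖F x‖ ≤ C) :
    ‖mc m F‖ ≤ 2 * C := by
  refine (Complex.norm_le_abs_re_add_abs_im _).trans ?_
  have h1 : |m (fun x => (F x).re)| ≤ C :=
    h.absle (fun x => (Complex.abs_re_le_norm _).trans (hF x))
  have h2 : |m (fun x => (F x).im)| ≤ C :=
    h.absle (fun x => (Complex.abs_im_le_norm _).trans (hF x))
  simp only [mc]
  linarith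

theorem mc_inv (h : IsMean m) {F : G → ℂ} (hF : CBdd F) (g : G) :
    mc m (fun x => F (g * x)) = mc m F := by
  apply Complex.ext
  · simp only [mc]
    exact h.inv (fun x => (F x).re) g hF.re
  · simp only [mc]
    exact h.inv (fun x => (F x).im) g hF.im

end mean

section avg

variable {G : Type} {H : Type} [NormedAddCommGroup H] [InnerProductSpace ℂ H]

theorem cbdd_inner {S : G → (H →L[ℂ] H)} {R : ℝ} (hS : ∀ g, ‖S g‖ ≤ R) (x y : H) :
    ∀ g, ‖⟪S g x, y⟫_ℂ‖ ≤ R * ‖x‖ * ‖y‖ := fun g =>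
  (norm_inner_le_norm _ _).trans (mul_le_mul_of_nonneg_right (((S g).le_opNorm x).trans
    (mul_le_mul_of_nonneg_right (hS g) (norm_nonneg _))) (norm_nonneg _))

variable [CompleteSpace H] [Group G] {m : (G → ℝ) → ℝ}

/-- The average of a bounded family of operators. -/
theorem exists_avg (h : IsMean m) (S : G → (H →L[ℂ] H)) (R : ℝ) (hS : ∀ g, ‖S g‖ ≤ R) :
    ∃ T : H →L[ℂ] H, ∀ x y, ⟪T x, y⟫_ℂ = mc m (fun g => ⟪S g x, y⟫_ℂ) := by
  have hb : ∀ x y, CBdd (fun g => ⟪S g x, y⟫_ℂ) := fun x y => ⟨_, cbdd_inner hS x y⟩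
  let B0 : H →ₗ⋆[ℂ] H →ₗ[ℂ] ℂ := LinearMap.mk₂'ₛₗ (starRingEnd ℂ) (RingHom.id ℂ)
    (fun x y => mc m (fun g => ⟪S g x, y⟫_ℂ))
    (fun x x' y => by
      rw [← mc_add h (hb x y) (hb x' y)]
      congr 1
      funext g
      rw [map_add, inner_add_left])
    (fun c x y => by
      rw [smul_eq_mul, ← mc_smul h _ (hb x y)]
      congr 1
      funext g
      rw [map_smul, inner_smul_left])
    (fun x y y' => by
      rw [← mc_add h (hb x y) (hb x y')]
      congr 1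
      funext g
      rw [inner_add_right])
    (fun c x y => by
      rw [smul_eq_mul, RingHom.id_apply, ← mc_smul h _ (hb x y)]
      congr 1
      funext g
      rw [inner_smul_right])
  have hB0 : ∀ x y, ‖B0 x y‖ ≤ (2 * R) * ‖x‖ * ‖y‖ := by
    intro x y
    have := mc_norm h (cbdd_inner hS x y)
    calc ‖B0 x y‖ = ‖mc m (fun g => ⟪S g x, y⟫_ℂ)‖ := rfl
      _ ≤ 2 * (R * ‖x‖ * ‖y‖) := this
      _ = _ := by ring
  refine ⟨InnerProductSpace.continuousLinearMapOfBilin (B0.mkContinuous₂ (2 * R) hB0), ?_⟩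
  intro x y
  rw [InnerProductSpace.continuousLinearMapOfBilin_apply, LinearMap.mkContinuous₂_apply]
  rfl

/-- The average over an amenable group. -/
theorem average (hG : Amenable G) (S : G → (H →L[ℂ] H)) (R k K : ℝ) (hS : ∀ g, ‖S g‖ ≤ R)
    (hsa : ∀ g, IsSelfAdjoint (S g)) (hk : ∀ g x, k * ‖x‖ ^ 2 ≤ (⟪S g x, x⟫_ℂ).re)
    (hK : ∀ g x, (⟪S g x, x⟫_ℂ).re ≤ K * ‖x‖ ^ 2) :
    ∃ T : H →L[ℂ] H, IsSelfAdjoint T ∧ (∀ x, k * ‖x‖ ^ 2 ≤ (⟪T x, x⟫_ℂ).re) ∧
      (∀ x, (⟪T x, x⟫_ℂ).re ≤ K * ‖x‖ ^ 2) ∧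
      (∀ a b : H →L[ℂ] H, (∀ g, S g * a = b * S g) → T * a = b * T) ∧
      (∀ (s : G) (a : H →L[ℂ] H), (∀ g, star a * S g * a = S (s * g)) → star a * T * a = T) := by
  obtain ⟨m, h⟩ := hG
  obtain ⟨T, hT⟩ := exists_avg h S R hS
  have hb : ∀ x y, CBdd (fun g => ⟪S g x, y⟫_ℂ) := fun x y => ⟨_, cbdd_inner hS x y⟩
  have hre : ∀ x, (⟪T x, x⟫_ℂ).re = m (fun g => (⟪S g x, x⟫_ℂ).re) := fun x => by
    rw [hT]; rfl
  refine ⟨T, ?_, ?_, ?_, ?_, ?_⟩
  · rw [ContinuousLinearMap.isSelfAdjoint_iff_isSymmetric]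
    intro x y
    change ⟪T x, y⟫_ℂ = ⟪x, T y⟫_ℂ
    rw [← inner_conj_symm x (T y), hT, hT, ← mc_conj h (hb y x)]
    congr 1
    funext g
    have := (ContinuousLinearMap.isSelfAdjoint_iff_isSymmetric.1 (hsa g)) x y
    change ⟪S g x, y⟫_ℂ = ⟪x, S g y⟫_ℂ at this
    rw [this, inner_conj_symm]
  · intro x
    rw [hre]
    have := h.mono (bdd_const G (k * ‖x‖ ^ 2)) (hb x x).re (fun g => hk g x)
    rwa [h.const] at this
  · intro x
    rw [hre]
    have := h.mono (hb x x).re (bdd_const G (K * ‖x‖ ^ 2)) (fun g => hK g x)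
    rwa [h.const] at this
  · intro a b hab
    ext x
    refine ext_inner_right ℂ fun y => ?_
    change ⟪T (a x), y⟫_ℂ = ⟪b (T x), y⟫_ℂ
    rw [← ContinuousLinearMap.adjoint_inner_right b (T x) y, hT, hT]
    congr 1
    funext g
    rw [ContinuousLinearMap.adjoint_inner_right b]
    have := congrArg (fun F : H →L[ℂ] H => F x) (hab g)
    change S g (a x) = b (S g x) at this
    rw [this]
  · intro s a ha
    ext x
    refine ext_inner_right ℂ fun y => ?_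
    change ⟪(star a) (T (a x)), y⟫_ℂ = ⟪T x, y⟫_ℂ
    rw [ContinuousLinearMap.star_eq_adjoint, ContinuousLinearMap.adjoint_inner_left, hT, hT,
      ← mc_inv h (hb x y) s]
    congr 1
    funext g
    rw [← ha g]
    change _ = ⟪(star a) (S g (a x)), y⟫_ℂ
    rw [ContinuousLinearMap.star_eq_adjoint, ContinuousLinearMap.adjoint_inner_left]

/-- The square root of a positive invertible operator. -/
theorem exists_root (T : H →L[ℂ] H) (hT : IsSelfAdjoint T) (k K : ℝ) (hk : 0 < k) (hK : 0 ≤ K)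
    (h1 : ∀ x, k * ‖x‖ ^ 2 ≤ (⟪T x, x⟫_ℂ).re) (h2 : ∀ x, (⟪T x, x⟫_ℂ).re ≤ K * ‖x‖ ^ 2) :
    ∃ ξ : (H →L[ℂ] H)ˣ, star (ξ : H →L[ℂ] H) * ξ = T ∧ ‖(ξ : H →L[ℂ] H)‖ ^ 2 ≤ K ∧
      ‖((ξ⁻¹ : (H →L[ℂ] H)ˣ) : H →L[ℂ] H)‖ ^ 2 ≤ k⁻¹ := by
  have hpos : 0 ≤ T := by
    rw [ContinuousLinearMap.nonneg_iff_isPositive, ContinuousLinearMap.isPositive_def]
    refine ⟨ContinuousLinearMap.isSelfAdjoint_iff_isSymmetric.1 hT, fun x => ?_⟩
    change 0 ≤ (⟪T x, x⟫_ℂ).re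
    exact (by positivity : 0 ≤ k * ‖x‖ ^ 2).trans (h1 x)
  set r : H →L[ℂ] H := CFC.sqrt T with hr
  have hrr : r * r = T := CFC.sqrt_mul_sqrt_self T hpos
  have hrs : star r = r := (CFC.sqrt_nonneg T).isSelfAdjoint
  have hTu : IsUnit T := by
    refine ContinuousLinearMap.isUnit_of_forall_le_norm_inner_map T (c := ⟨k, hk.le⟩) hk fun x => ?_
    calc ‖x‖ ^ 2 * k = k * ‖x‖ ^ 2 := mul_comm _ _
      _ ≤ (⟪T x, x⟫_ℂ).re := h1 x
      _ ≤ |(⟪T x, x⟫_ℂ).re| := le_abs_self _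
      _ ≤ ‖⟪T x, x⟫_ℂ‖ := Complex.abs_re_le_norm _
  have hru : IsUnit r := by
    have : IsUnit (r * r) := by rw [hrr]; exact hTu
    exact ((Commute.refl r).isUnit_mul_iff.1 this).1
  obtain ⟨ξ, hξ⟩ := hru
  have hn : ∀ x, ‖(ξ : H →L[ℂ] H) x‖ ^ 2 = (⟪T x, x⟫_ℂ).re := by
    intro x
    rw [hξ, ← hrr]
    change _ = (⟪r (r x), x⟫_ℂ).re
    have : ⟪r (r x), x⟫_ℂ = ⟪r x, r x⟫_ℂ := by
      conv_lhs => rw [← hrs]
      rw [ContinuousLinearMap.star_eq_adjoint, ContinuousLinearMap.adjoint_inner_left]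
      rw [← ContinuousLinearMap.star_eq_adjoint, hrs]
    rw [this, inner_self_eq_norm_sq_to_K]
    norm_cast
  refine ⟨ξ, ?_, ?_, ?_⟩
  · rw [hξ, hrs, hrr]
  · have : ‖(ξ : H →L[ℂ] H)‖ ≤ √K := by
      refine ContinuousLinearMap.opNorm_le_bound _ (Real.sqrt_nonneg _) fun x => ?_
      rw [← Real.sqrt_sq (norm_nonneg ((ξ : H →L[ℂ] H) x)), hn,
        ← Real.sqrt_sq (norm_nonneg x), ← Real.sqrt_mul hK]
      exact Real.sqrt_le_sqrt (h2 x)
    calc ‖(ξ : H →L[ℂ] H)‖ ^ 2 ≤ (√K) ^ 2 := pow_le_pow_left₀ (norm_nonneg _) this 2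
      _ = K := Real.sq_sqrt hK
  · have : ‖((ξ⁻¹ : (H →L[ℂ] H)ˣ) : H →L[ℂ] H)‖ ≤ √(k⁻¹) := by
      refine ContinuousLinearMap.opNorm_le_bound _ (Real.sqrt_nonneg _) fun y => ?_
      set x := ((ξ⁻¹ : (H →L[ℂ] H)ˣ) : H →L[ℂ] H) y with hx
      have hy : (ξ : H →L[ℂ] H) x = y := by
        rw [hx]
        change ((ξ : H →L[ℂ] H) * ((ξ⁻¹ : (H →L[ℂ] H)ˣ) : H →L[ℂ] H)) y = y
        rw [Units.mul_inv]
        rfl
      have h3 : k * ‖x‖ ^ 2 ≤ ‖y‖ ^ 2 := by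
        rw [← hy, hn]
        exact h1 x
      rw [← Real.sqrt_sq (norm_nonneg x), ← Real.sqrt_sq (norm_nonneg y),
        ← Real.sqrt_mul (inv_nonneg.2 hk.le)]
      apply Real.sqrt_le_sqrt
      rw [inv_mul_eq_div, le_div_iff₀ hk]
      linarith
    calc ‖((ξ⁻¹ : (H →L[ℂ] H)ˣ) : H →L[ℂ] H)‖ ^ 2 ≤ (√(k⁻¹)) ^ 2 :=
        pow_le_pow_left₀ (norm_nonneg _) this 2
      _ = k⁻¹ := Real.sq_sqrt (inv_nonneg.2 hk.le)

end avg

end TH140.KC
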