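import Mathlib
import Pool.Agent.TH140.KC.Avg

/-!
Simultaneous similarity: from a similarity for the algebra alone to a similarity for the algebra and
an amenable group normalising it.
-/

set_option autoImplicit false

open scoped InnerProductSpace ComplexConjugate

noncomputable section

namespace TH140.KC

variable {H : Type} [NormedAddCommGroup H] [InnerProductSpace ℂ H] [CompleteSpace H]

theorem inner_star_mul (a b : H →L[ℂ] H) (x : H) :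
    ⟪(star a * b) x, x⟫_ℂ = ⟪b x, a x⟫_ℂ := by
  change ⟪(star a) (b x), x⟫_ℂ = _
  rw [ContinuousLinearMap.star_eq_adjoint, ContinuousLinearMap.adjoint_inner_left]

theorem re_inner_self (x : H) : (⟪x, x⟫_ℂ).re = ‖x‖ ^ 2 := by
  rw [inner_self_eq_norm_sq_to_K]
  norm_cast

theorem star_inv_mul (ξ : (H →L[ℂ] H)ˣ) :
    star ((ξ⁻¹ : (H →L[ℂ] H)ˣ) : H →L[ℂ] H) * star (ξ : H →L[ℂ] H) = 1 := by
  rw [← star_mul, Units.mul_inv, star_one]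

theorem star_mul_inv (ξ : (H →L[ℂ] H)ˣ) :
    star (ξ : H →L[ℂ] H) * star ((ξ⁻¹ : (H →L[ℂ] H)ˣ) : H →L[ℂ] H) = 1 := by
  rw [← star_mul, Units.inv_mul, star_one]

/-- `ξ a' ξ⁻¹ = (ξ a ξ⁻¹)*` means `T a' = a* T` for `T = ξ* ξ`. -/
theorem sim_iff (ξ : (H →L[ℂ] H)ˣ) (a a' : H →L[ℂ] H) :
    (ξ : H →L[ℂ] H) * a' * ((ξ⁻¹ : (H →L[ℂ] H)ˣ) : H →L[ℂ] H)
        = star ((ξ : H →L[ℂ] H) * a * ((ξ⁻¹ : (H →L[ℂ] H)ˣ) : H →L[ℂ] H)) ↔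
      (star (ξ : H →L[ℂ] H) * ξ) * a' = star a * (star (ξ : H →L[ℂ] H) * ξ) := by
  have h1 := star_inv_mul ξ
  have h2 := star_mul_inv ξ
  have h3 : (ξ : H →L[ℂ] H) * ((ξ⁻¹ : (H →L[ℂ] H)ˣ) : H →L[ℂ] H) = 1 := Units.mul_inv ξ
  have h4 : ((ξ⁻¹ : (H →L[ℂ] H)ˣ) : H →L[ℂ] H) * (ξ : H →L[ℂ] H) = 1 := Units.inv_mul ξ
  rw [star_mul, star_mul]
  generalize (ξ : H →L[ℂ] H) = x at *
  generalize ((ξ⁻¹ : (H →L[ℂ] H)ˣ) : H →L[ℂ] H) = y at *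
  constructor
  · intro h
    calc star x * x * a' = star x * (x * a' * y) * x := by
          simp only [mul_assoc, h4, mul_one]
      _ = star x * (star y * (star a * star x)) * x := by rw [h]
      _ = star a * (star x * x) := by
          rw [← mul_assoc (star x), h2, one_mul, mul_assoc]
  · intro h
    calc x * a' * y = star y * (star x * x * a') * y := by
          rw [← mul_assoc (star y), ← mul_assoc (star y), h1, one_mul]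
      _ = star y * (star a * (star x * x)) * y := by rw [h]
      _ = star y * (star a * star x) := by
          simp only [mul_assoc, h3, mul_one]

variable {A : Type} [CStarAlgebra A] {G : Type} [Group G]

/-- Simultaneous similarity over an amenable group. -/
theorem simultaneous (hG : Amenable G) (u : A → (H →L[ℂ] H)) (K d : ℝ) (hK : 0 < K)
    (hd : 1 ≤ d) (ξ₀ : (H →L[ℂ] H)ˣ) (h1 : ‖(ξ₀ : H →L[ℂ] H)‖ ^ 2 ≤ K)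
    (h2 : ‖((ξ₀⁻¹ : (H →L[ℂ] H)ˣ) : H →L[ℂ] H)‖ ^ 2 ≤ K)
    (h3 : ∀ x : A, (ξ₀ : H →L[ℂ] H) * u (star x) * ((ξ₀⁻¹ : (H →L[ℂ] H)ˣ) : H →L[ℂ] H)
        = star ((ξ₀ : H →L[ℂ] H) * u x * ((ξ₀⁻¹ : (H →L[ℂ] H)ˣ) : H →L[ℂ] H)))
    (π : G → (H →L[ℂ] H)ˣ) (hπ : ∀ g, ‖((π g : (H →L[ℂ] H)ˣ) : H →L[ℂ] H)‖ ≤ d)
    (hπ' : ∀ g, ‖(((π g)⁻¹ : (H →L[ℂ] H)ˣ) : H →L[ℂ] H)‖ ≤ d)
    (α : G → A → A) (hα : ∀ g x, α g (star x) = star (α g x))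
    (hcov : ∀ g x, ((π g : (H →L[ℂ] H)ˣ) : H →L[ℂ] H) * u x = u (α g x) * π g)
    (w : G → G → (H →L[ℂ] H))
    (hw : ∀ g h, star (w g h) * (star (ξ₀ : H →L[ℂ] H) * ξ₀) * w g h
      = star (ξ₀ : H →L[ℂ] H) * ξ₀)
    (hmul : ∀ g h, ((π g : (H →L[ℂ] H)ˣ) : H →L[ℂ] H) * π h = w g h * π (g * h)) :
    ∃ ξ : (H →L[ℂ] H)ˣ, ‖(ξ : H →L[ℂ] H)‖ ^ 2 ≤ K * d ^ 2 ∧
      ‖((ξ⁻¹ : (H →L[ℂ] H)ˣ) : H →L[ℂ] H)‖ ^ 2 ≤ K * d ^ 2 ∧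
      (∀ x : A, (ξ : H →L[ℂ] H) * u (star x) * ((ξ⁻¹ : (H →L[ℂ] H)ˣ) : H →L[ℂ] H)
        = star ((ξ : H →L[ℂ] H) * u x * ((ξ⁻¹ : (H →L[ℂ] H)ˣ) : H →L[ℂ] H))) ∧
      ∀ g : G, (ξ : H →L[ℂ] H) * π g * ((ξ⁻¹ : (H →L[ℂ] H)ˣ) : H →L[ℂ] H)
        ∈ unitary (H →L[ℂ] H) := by
  have hd0 : 0 < d := by linarith
  set T₀ : H →L[ℂ] H := star (ξ₀ : H →L[ℂ] H) * ξ₀ with hT₀
  have hT₀u : ∀ x : A, T₀ * u (star x) = star (u x) * T₀ := fun x =>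
    (sim_iff ξ₀ (u x) (u (star x))).1 (h3 x)
  have hT₀s : star T₀ = T₀ := by rw [hT₀, star_mul, star_star]
  let S : G → (H →L[ℂ] H) := fun g => star ((π g⁻¹ : (H →L[ℂ] H)ˣ) : H →L[ℂ] H) * T₀ * π g⁻¹
  have hSin : ∀ g x, (⟪S g x, x⟫_ℂ).re
      = ‖(ξ₀ : H →L[ℂ] H) (((π g⁻¹ : (H →L[ℂ] H)ˣ) : H →L[ℂ] H) x)‖ ^ 2 := by
    intro g x
    have e : S g = star ((ξ₀ : H →L[ℂ] H) * π g⁻¹) * ((ξ₀ : H →L[ℂ] H) * π g⁻¹) := by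
      simp only [S, hT₀, star_mul, mul_assoc]
    rw [e, inner_star_mul, re_inner_self]
    rfl
  have hlow : ∀ g (x : H), (K * d ^ 2)⁻¹ * ‖x‖ ^ 2 ≤ (⟪S g x, x⟫_ℂ).re := by
    intro g x
    rw [hSin, inv_mul_le_iff₀ (by positivity)]
    set y := ((π g⁻¹ : (H →L[ℂ] H)ˣ) : H →L[ℂ] H) x with hy
    have e1 : (((π g⁻¹)⁻¹ : (H →L[ℂ] H)ˣ) : H →L[ℂ] H) y = x := by
      rw [hy]
      change ((((π g⁻¹)⁻¹ : (H →L[ℂ] H)ˣ) : H →L[ℂ] H) * (π g⁻¹ : (H →L[ℂ] H)ˣ)) x = x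
      rw [Units.inv_mul]; rfl
    have e2 : ((ξ₀⁻¹ : (H →L[ℂ] H)ˣ) : H →L[ℂ] H) ((ξ₀ : H →L[ℂ] H) y) = y := by
      change (((ξ₀⁻¹ : (H →L[ℂ] H)ˣ) : H →L[ℂ] H) * ξ₀) y = y
      rw [Units.inv_mul]; rfl
    have n1 : ‖x‖ ≤ d * ‖y‖ := by
      conv_lhs => rw [← e1]
      exact (ContinuousLinearMap.le_opNorm _ _).trans
        (mul_le_mul_of_nonneg_right (hπ' _) (norm_nonneg _))
    have n2 : ‖y‖ ^ 2 ≤ K * ‖(ξ₀ : H →L[ℂ] H) y‖ ^ 2 := by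
      have : ‖y‖ ≤ ‖((ξ₀⁻¹ : (H →L[ℂ] H)ˣ) : H →L[ℂ] H)‖ * ‖(ξ₀ : H →L[ℂ] H) y‖ := by
        conv_lhs => rw [← e2]
        exact ContinuousLinearMap.le_opNorm _ _
      calc ‖y‖ ^ 2 ≤ (‖((ξ₀⁻¹ : (H →L[ℂ] H)ˣ) : H →L[ℂ] H)‖ * ‖(ξ₀ : H →L[ℂ] H) y‖) ^ 2 :=
            pow_le_pow_left₀ (norm_nonneg _) this 2
        _ = ‖((ξ₀⁻¹ : (H →L[ℂ] H)ˣ) : H →L[ℂ] H)‖ ^ 2 * ‖(ξ₀ : H →L[ℂ] H) y‖ ^ 2 := by ring
        _ ≤ _ := mul_le_mul_of_nonneg_right h2 (sq_nonneg _)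
    calc ‖x‖ ^ 2 ≤ (d * ‖y‖) ^ 2 := pow_le_pow_left₀ (norm_nonneg _) n1 2
      _ = d ^ 2 * ‖y‖ ^ 2 := by ring
      _ ≤ d ^ 2 * (K * ‖(ξ₀ : H →L[ℂ] H) y‖ ^ 2) := mul_le_mul_of_nonneg_left n2 (sq_nonneg _)
      _ = _ := by ring
  have hup : ∀ g (x : H), (⟪S g x, x⟫_ℂ).re ≤ (K * d ^ 2) * ‖x‖ ^ 2 := by
    intro g x
    rw [hSin]
    set y := ((π g⁻¹ : (H →L[ℂ] H)ˣ) : H →L[ℂ] H) x with hy
    have n1 : ‖y‖ ≤ d * ‖x‖ := (ContinuousLinearMap.le_opNorm _ _).trans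
        (mul_le_mul_of_nonneg_right (hπ _) (norm_nonneg _))
    have n2 : ‖(ξ₀ : H →L[ℂ] H) y‖ ≤ ‖(ξ₀ : H →L[ℂ] H)‖ * ‖y‖ :=
      ContinuousLinearMap.le_opNorm _ _
    calc ‖(ξ₀ : H →L[ℂ] H) y‖ ^ 2 ≤ (‖(ξ₀ : H →L[ℂ] H)‖ * ‖y‖) ^ 2 :=
          pow_le_pow_left₀ (norm_nonneg _) n2 2
      _ = ‖(ξ₀ : H →L[ℂ] H)‖ ^ 2 * ‖y‖ ^ 2 := by ring
      _ ≤ K * ‖y‖ ^ 2 := mul_le_mul_of_nonneg_right h1 (sq_nonneg _)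
      _ ≤ K * (d * ‖x‖) ^ 2 := mul_le_mul_of_nonneg_left
          (pow_le_pow_left₀ (norm_nonneg _) n1 2) hK.le
      _ = _ := by ring
  have hbd : ∀ g, ‖S g‖ ≤ d * ‖T₀‖ * d := by
    intro g
    refine (norm_mul_le _ _).trans (mul_le_mul ((norm_mul_le _ _).trans ?_) (hπ _)
      (norm_nonneg _) (by positivity))
    rw [norm_star]
    exact mul_le_mul_of_nonneg_right (hπ _) (norm_nonneg _)
  have hsa : ∀ g, IsSelfAdjoint (S g) := by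
    intro g
    simp only [IsSelfAdjoint, S, star_mul, star_star, hT₀s, mul_assoc]
  clear_value T₀
  obtain ⟨T, hTs, hTl, hTu, hTint, hTinv⟩ := average hG S _ _ _ hbd hsa hlow hup
  obtain ⟨ξ, hξT, hξ1, hξ2⟩ := exists_root T hTs (K * d ^ 2)⁻¹ (K * d ^ 2) (by positivity)
    (by positivity) hTl hTu
  rw [inv_inv] at hξ2
  refine ⟨ξ, hξ1, hξ2, fun x => ?_, fun g => ?_⟩
  · rw [sim_iff, hξT]
    refine hTint _ _ fun g => ?_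
    have c1 := hcov g⁻¹ (star x)
    have c2 := hcov g⁻¹ x
    have c3 := hT₀u (α g⁻¹ x)
    rw [hα] at c1
    calc S g * u (star x)
        = star ((π g⁻¹ : (H →L[ℂ] H)ˣ) : H →L[ℂ] H) * (T₀ *
            (((π g⁻¹ : (H →L[ℂ] H)ˣ) : H →L[ℂ] H) * u (star x))) := by
          simp only [S, mul_assoc]
      _ = star ((π g⁻¹ : (H →L[ℂ] H)ˣ) : H →L[ℂ] H) * (T₀ * u (star (α g⁻¹ x)) * π g⁻¹) := by
          rw [c1, ← mul_assoc T₀]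
      _ = star (u (α g⁻¹ x) * ((π g⁻¹ : (H →L[ℂ] H)ˣ) : H →L[ℂ] H)) * (T₀ * π g⁻¹) := by
          rw [c3, star_mul, mul_assoc (star (u _)), mul_assoc (star _)]
      _ = star (u x) * S g := by
          rw [← c2, star_mul]
          simp only [S, mul_assoc]
  · have hinv : star ((π g : (H →L[ℂ] H)ˣ) : H →L[ℂ] H) * T * π g = T := by
      refine hTinv g⁻¹ _ fun k => ?_
      have e1 := hmul k⁻¹ g
      have e2 := hw k⁻¹ g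
      have e3 : (g⁻¹ * k)⁻¹ = k⁻¹ * g := by rw [mul_inv_rev, inv_inv]
      calc star ((π g : (H →L[ℂ] H)ˣ) : H →L[ℂ] H) * S k * π g
          = star (((π k⁻¹ : (H →L[ℂ] H)ˣ) : H →L[ℂ] H) * π g) * T₀ *
            (((π k⁻¹ : (H →L[ℂ] H)ˣ) : H →L[ℂ] H) * π g) := by
            simp only [S, star_mul, mul_assoc]
        _ = star ((π (k⁻¹ * g) : (H →L[ℂ] H)ˣ) : H →L[ℂ] H) *
            (star (w k⁻¹ g) * T₀ * w k⁻¹ g) * π (k⁻¹ * g) := by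
            rw [e1]
            simp only [star_mul, mul_assoc]
        _ = S (g⁻¹ * k) := by
            rw [e2]
            simp only [S, e3]
    have h3 : (ξ : H →L[ℂ] H) * ((ξ⁻¹ : (H →L[ℂ] H)ˣ) : H →L[ℂ] H) = 1 := Units.mul_inv ξ
    have h4 : ((ξ⁻¹ : (H →L[ℂ] H)ˣ) : H →L[ℂ] H) * (ξ : H →L[ℂ] H) = 1 := Units.inv_mul ξ
    have h5 := star_inv_mul ξ
    set W : (H →L[ℂ] H)ˣ := ξ * π g * ξ⁻¹ with hW
    have hW' : (W : H →L[ℂ] H) = (ξ : H →L[ℂ] H) * π g * ((ξ⁻¹ : (H →L[ℂ] H)ˣ) : H →L[ℂ] H) := rfl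
    have hWW : star (W : H →L[ℂ] H) * W = 1 := by
      rw [hW', star_mul, star_mul]
      calc star ((ξ⁻¹ : (H →L[ℂ] H)ˣ) : H →L[ℂ] H) *
            (star ((π g : (H →L[ℂ] H)ˣ) : H →L[ℂ] H) * star (ξ : H →L[ℂ] H)) *
            ((ξ : H →L[ℂ] H) * π g * ((ξ⁻¹ : (H →L[ℂ] H)ˣ) : H →L[ℂ] H))
          = star ((ξ⁻¹ : (H →L[ℂ] H)ˣ) : H →L[ℂ] H) *
            (star ((π g : (H →L[ℂ] H)ˣ) : H →L[ℂ] H) * (star (ξ : H →L[ℂ] H) * ξ) * π g) *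
            ((ξ⁻¹ : (H →L[ℂ] H)ˣ) : H →L[ℂ] H) := by simp only [mul_assoc]
        _ = star ((ξ⁻¹ : (H →L[ℂ] H)ˣ) : H →L[ℂ] H) * (star (ξ : H →L[ℂ] H) * ξ) *
            ((ξ⁻¹ : (H →L[ℂ] H)ˣ) : H →L[ℂ] H) := by rw [hξT, hinv]
        _ = 1 := by rw [← mul_assoc, h5, one_mul, h3]
    rw [← hW', Unitary.mem_iff]
    refine ⟨hWW, ?_⟩
    have : star (W : H →L[ℂ] H) = ((W⁻¹ : (H →L[ℂ] H)ˣ) : H →L[ℂ] H) := by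
      calc star (W : H →L[ℂ] H) = star (W : H →L[ℂ] H) * (W * ((W⁻¹ : (H →L[ℂ] H)ˣ) : H →L[ℂ] H)) := by
            rw [Units.mul_inv, mul_one]
        _ = _ := by rw [← mul_assoc, hWW, one_mul]
    rw [this, Units.mul_inv]

end TH140.KC
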