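import Mathlib
import Pool.Agent.H770R2.Kad.HAsm
import Pool.Agent.H759R2.Kad.Assemble4
import Pool.Agent.TH140.KC.Cov

/-!
Homomorphisms of C*-algebras of norm close to one: derivations with a bound, the defect, and square
roots of operators close to the identity.
-/

set_option autoImplicit false

open scoped InnerProductSpace ComplexConjugate ComplexOrder

noncomputable section

namespace TH140.KC

open H759R2.Kad

/-- The constant in the innerness of derivations: `864 · 4 ^ 29`. -/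
theorem inner_unital (A : Type) [CStarAlgebra A] (H : Type) [NormedAddCommGroup H]
    [InnerProductSpace ℂ H] [CompleteSpace H] (π : A →⋆ₐ[ℂ] (H →L[ℂ] H))
    (D : A →ₗ[ℂ] (H →L[ℂ] H)) (hD : ∀ a b, D (a * b) = π a * D b + D a * π b)
    (M : ℝ) (hM0 : 0 ≤ M) (hM : ∀ a, ‖D a‖ ≤ M * ‖a‖) :
    ∃ T : H →L[ℂ] H, ‖T‖ ≤ 864 * 4 ^ 29 * M ∧ ∀ a, D a = T * π a - π a * T := by
  refine final_dscale A H (864 * 4 ^ 29) (by norm_num) ?_ π D hD M hM0 hM
  intro w hw hwn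
  obtain ⟨S, S', h1, h2, h3, h4, h5⟩ := H770R2.Kad.fin_similar A (HH (Fin 2) H) w hw 2
    (by norm_num) hwn
  refine ⟨S, S', h1, h2, ?_, h5⟩
  have e : (864 * (2 * 2) ^ 29 : ℝ) = 864 * 4 ^ 29 := by norm_num
  rw [e] at h3 h4
  have : (‖S‖ * ‖S'‖) ^ 2 ≤ (864 * 4 ^ 29 : ℝ) ^ 2 := by
    rw [mul_pow]
    calc ‖S‖ ^ 2 * ‖S'‖ ^ 2 ≤ (864 * 4 ^ 29) * (864 * 4 ^ 29) :=
          mul_le_mul h3 h4 (sq_nonneg _) (by norm_num)
      _ = _ := by ring
  exact le_of_sq_le_sq this (by norm_num)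

variable {H : Type} [NormedAddCommGroup H] [InnerProductSpace ℂ H] [CompleteSpace H]

/-- A self-adjoint operator with small quadratic form is small. -/
theorem norm_le_of_form (T : H →L[ℂ] H) (hT : star T = T) (c : ℝ) (hc : 0 ≤ c)
    (h1 : ∀ x, |(⟪T x, x⟫_ℂ).re| ≤ c * ‖x‖ ^ 2) : ‖T‖ ≤ c := by
  refine ContinuousLinearMap.opNorm_le_bound _ hc fun x => ?_
  have hsym : ∀ x y, ⟪T x, y⟫_ℂ = ⟪x, T y⟫_ℂ := by
    intro x y
    conv_lhs => rw [← hT]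
    rw [ContinuousLinearMap.star_eq_adjoint, ContinuousLinearMap.adjoint_inner_left]
  -- parallelogram trick: `4 c ‖Tx‖² · t ≤ ...`
  by_cases hx : ‖T x‖ = 0
  · rw [hx]; positivity
  have hx0 : 0 < ‖T x‖ := lt_of_le_of_ne (norm_nonneg _) (Ne.symm hx)
  have hxx : x ≠ 0 := by
    rintro rfl
    simp at hx
  have hxn : 0 < ‖x‖ := norm_pos_iff.2 hxx
  -- take `y = (‖x‖ / ‖T x‖) T x`, of the same norm as `x`
  set t : ℝ := ‖x‖ / ‖T x‖ with ht
  have htp : 0 < t := by positivity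
  set y : H := (t : ℂ) • T x with hy
  have hyn : ‖y‖ = ‖x‖ := by
    rw [hy, norm_smul, Complex.norm_real, Real.norm_of_nonneg htp.le, ht]
    field_simp
  have e1 : (⟪T (x + y), x + y⟫_ℂ).re - (⟪T (x - y), x - y⟫_ℂ).re = 4 * (⟪T x, y⟫_ℂ).re := by
    have s1 : (⟪T y, x⟫_ℂ).re = (⟪T x, y⟫_ℂ).re := by
      rw [hsym y x, ← inner_conj_symm, Complex.conj_re]
    simp only [map_add, map_sub, inner_add_left, inner_add_right, inner_sub_left,
      inner_sub_right, Complex.add_re, Complex.sub_re]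
    linarith
  have e2 : (⟪T x, y⟫_ℂ).re = t * ‖T x‖ ^ 2 := by
    rw [hy, inner_smul_right, inner_self_eq_norm_sq_to_K]
    have : ((t : ℂ) * ((‖T x‖ : ℝ) : ℂ) ^ 2) = ((t * ‖T x‖ ^ 2 : ℝ) : ℂ) := by push_cast; ring
    change ((t : ℂ) * ((‖T x‖ : ℝ) : ℂ) ^ 2).re = _
    rw [this, Complex.ofReal_re]
  have p1 := h1 (x + y)
  have p2 := h1 (x - y)
  have p3 := parallelogram_law_with_norm ℂ x y
  have p4 : 4 * (t * ‖T x‖ ^ 2) ≤ c * (‖x + y‖ ^ 2 + ‖x - y‖ ^ 2) := by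
    rw [← e2, ← e1]
    have := (abs_le.1 p1).2
    have := (abs_le.1 p2).1
    linarith
  have p5 : ‖x + y‖ ^ 2 + ‖x - y‖ ^ 2 = 4 * ‖x‖ ^ 2 := by
    rw [p3, hyn]
    ring
  rw [p5] at p4
  have p6 : t * ‖T x‖ ^ 2 = ‖x‖ * ‖T x‖ := by
    rw [ht]
    field_simp
  rw [p6] at p4
  have p7 : ‖x‖ * ‖T x‖ ≤ ‖x‖ * (c * ‖x‖) := by nlinarith
  exact le_of_mul_le_mul_left p7 hxn

/-- `g` and `(g⁻¹)*` are close if `g` and `g⁻¹` have norm at most `1 + ε`. -/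
theorem inv_star_close (g g' : H →L[ℂ] H) (h1 : g' * g = 1) (h2 : g * g' = 1) (ε : ℝ)
    (hε : 0 ≤ ε) (hε1 : ε ≤ 1) (hg : ‖g‖ ≤ 1 + ε) (hg' : ‖g'‖ ≤ 1 + ε) :
    ‖g - star g'‖ ≤ 6 * ε := by
  have e : g - star g' = star g' * (star g * g - 1) := by
    rw [mul_sub, mul_one, ← mul_assoc, ← star_mul, h2, star_one, one_mul]
  have hq : ‖star g * g - 1‖ ≤ 3 * ε := by
    refine norm_le_of_form _ (by simp [star_mul]) _ (by positivity) fun x => ?_
    have e1 : (⟪(star g * g - 1) x, x⟫_ℂ).re = ‖g x‖ ^ 2 - ‖x‖ ^ 2 := by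
      have : (star g * g - 1) x = (star g * g) x - x := rfl
      rw [this, inner_sub_left, inner_star_mul, Complex.sub_re, re_inner_self, re_inner_self]
    have b1 : ‖g x‖ ≤ (1 + ε) * ‖x‖ :=
      (g.le_opNorm x).trans (mul_le_mul_of_nonneg_right hg (norm_nonneg _))
    have b2 : ‖x‖ ≤ (1 + ε) * ‖g x‖ := by
      have : g' (g x) = x := by
        change (g' * g) x = x
        rw [h1]; rfl
      conv_lhs => rw [← this]
      exact (g'.le_opNorm _).trans (mul_le_mul_of_nonneg_right hg' (norm_nonneg _))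
    have c1 : ‖g x‖ ^ 2 ≤ (1 + 3 * ε) * ‖x‖ ^ 2 := by
      calc ‖g x‖ ^ 2 ≤ ((1 + ε) * ‖x‖) ^ 2 := pow_le_pow_left₀ (norm_nonneg _) b1 2
        _ = (1 + 2 * ε + ε * ε) * ‖x‖ ^ 2 := by ring
        _ ≤ _ := mul_le_mul_of_nonneg_right (by nlinarith) (sq_nonneg _)
    have c2 : ‖x‖ ^ 2 ≤ (1 + 3 * ε) * ‖g x‖ ^ 2 := by
      calc ‖x‖ ^ 2 ≤ ((1 + ε) * ‖g x‖) ^ 2 := pow_le_pow_left₀ (norm_nonneg _) b2 2
        _ = (1 + 2 * ε + ε * ε) * ‖g x‖ ^ 2 := by ring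
        _ ≤ _ := mul_le_mul_of_nonneg_right (by nlinarith) (sq_nonneg _)
    rw [e1, abs_le]
    constructor
    · rcases le_total (‖g x‖ ^ 2) (‖x‖ ^ 2) with h | h
      · have : 3 * ε * ‖g x‖ ^ 2 ≤ 3 * ε * ‖x‖ ^ 2 :=
          mul_le_mul_of_nonneg_left h (by positivity)
        linarith
      · have : 0 ≤ 3 * ε * ‖x‖ ^ 2 := by positivity
        linarith
    · linarith
  rw [e]
  calc ‖star g' * (star g * g - 1)‖ ≤ ‖star g'‖ * ‖star g * g - 1‖ := norm_mul_le _ _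
    _ ≤ 2 * (3 * ε) := by
        refine mul_le_mul ?_ hq (norm_nonneg _) (by norm_num)
        rw [norm_star]
        linarith
    _ = 6 * ε := by ring

/-- A unital homomorphism of norm at most `1 + ε` almost preserves adjoints. -/
theorem defect {A : Type} [CStarAlgebra A] (u : A →ₐ[ℂ] (H →L[ℂ] H)) (ε : ℝ)
    (hε : 0 ≤ ε) (hε1 : ε ≤ 1) (hu : ∀ x, ‖u x‖ ≤ (1 + ε) * ‖x‖) (x : A) :
    ‖u x - star (u (star x))‖ ≤ 12 * ε * ‖x‖ := by
  rcases subsingleton_or_nontrivial A with hA | hA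
  · have : x = 0 := Subsingleton.elim _ _
    simp [this]
  obtain ⟨w, c, hx, hc⟩ := CStarAlgebra.exists_sum_four_unitary x
  have hw : ∀ i, ‖u (w i : A) - star (u (star (w i : A)))‖ ≤ 6 * ε := by
    intro i
    have n1 : ‖(w i : A)‖ ≤ 1 := (CStarRing.norm_coe_unitary (w i)).le
    have n2 : ‖star (w i : A)‖ ≤ 1 := by rw [norm_star]; exact n1
    refine inv_star_close _ _ ?_ ?_ ε hε hε1 ?_ ?_
    · rw [← map_mul, Unitary.star_mul_self_of_mem (w i).2, map_one]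
    · rw [← map_mul, Unitary.mul_star_self_of_mem (w i).2, map_one]
    · exact (hu _).trans (by nlinarith)
    · exact (hu _).trans (by nlinarith)
  have hsum : u x - star (u (star x))
      = ∑ i, c i • (u (w i : A) - star (u (star (w i : A)))) := by
    conv_lhs => rw [hx]
    rw [star_sum, map_sum, map_sum, star_sum, ← Finset.sum_sub_distrib]
    refine Finset.sum_congr rfl fun i _ => ?_
    rw [star_smul, map_smul, map_smul, star_smul, star_star, smul_sub]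
  rw [hsum]
  refine (norm_sum_le _ _).trans ?_
  calc ∑ i, ‖c i • (u (w i : A) - star (u (star (w i : A))))‖
      ≤ ∑ _i : Fin 4, ‖x‖ / 2 * (6 * ε) := by
        refine Finset.sum_le_sum fun i _ => ?_
        rw [norm_smul]
        exact mul_le_mul (hc i) (hw i) (norm_nonneg _) (by positivity)
    _ = 12 * ε * ‖x‖ := by
        rw [Finset.sum_const, Finset.card_univ, Fintype.card_fin]
        ring

/-- The square root of a self-adjoint operator close to the identity is close to the identity. -/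
theorem root_near (T : H →L[ℂ] H) (hT : star T = T) (t : ℝ) (ht : t ≤ 1 / 2) (hTt : ‖T - 1‖ ≤ t) :
    ∃ ξ : (H →L[ℂ] H)ˣ, star (ξ : H →L[ℂ] H) * ξ = T ∧ ‖(ξ : H →L[ℂ] H) - 1‖ ≤ t ∧
      ‖((ξ⁻¹ : (H →L[ℂ] H)ˣ) : H →L[ℂ] H) - 1‖ ≤ 2 * t := by
  have ht0 : 0 ≤ t := (norm_nonneg _).trans hTt
  have hlow : ∀ x, (1 / 2 : ℝ) * ‖x‖ ^ 2 ≤ (⟪T x, x⟫_ℂ).re := by
    intro x
    have e : (⟪T x, x⟫_ℂ).re = ‖x‖ ^ 2 + (⟪(T - 1) x, x⟫_ℂ).re := by
      have : (T - 1) x = T x - x := rfl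
      rw [this, inner_sub_left, Complex.sub_re, re_inner_self]
      ring
    have b : |(⟪(T - 1) x, x⟫_ℂ).re| ≤ t * ‖x‖ ^ 2 := by
      refine (Complex.abs_re_le_norm _).trans ((norm_inner_le_norm _ _).trans ?_)
      have := ((T - 1).le_opNorm x).trans (mul_le_mul_of_nonneg_right hTt (norm_nonneg x))
      nlinarith [norm_nonneg x]
    have := (abs_le.1 b).1
    rw [e]
    nlinarith [sq_nonneg ‖x‖]
  have hpos : 0 ≤ T := by
    rw [ContinuousLinearMap.nonneg_iff_isPositive, ContinuousLinearMap.isPositive_def]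
    refine ⟨ContinuousLinearMap.isSelfAdjoint_iff_isSymmetric.1 hT, fun x => ?_⟩
    change 0 ≤ (⟪T x, x⟫_ℂ).re
    exact (by positivity : 0 ≤ (1 / 2 : ℝ) * ‖x‖ ^ 2).trans (hlow x)
  set r : H →L[ℂ] H := CFC.sqrt T with hr
  have hrr : r * r = T := CFC.sqrt_mul_sqrt_self T hpos
  have hr0 : 0 ≤ r := CFC.sqrt_nonneg T
  have hrs : star r = r := hr0.isSelfAdjoint
  have hk : (0 : ℝ) < 1 / 2 := by norm_num
  have hTu : IsUnit T := by
    refine ContinuousLinearMap.isUnit_of_forall_le_norm_inner_map T (c := ⟨1 / 2, hk.le⟩)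
      hk fun x => ?_
    calc ‖x‖ ^ 2 * (1 / 2) = (1 / 2) * ‖x‖ ^ 2 := mul_comm _ _
      _ ≤ (⟪T x, x⟫_ℂ).re := hlow x
      _ ≤ |(⟪T x, x⟫_ℂ).re| := le_abs_self _
      _ ≤ ‖⟪T x, x⟫_ℂ‖ := Complex.abs_re_le_norm _
  have hru : IsUnit r := by
    have : IsUnit (r * r) := by rw [hrr]; exact hTu
    exact ((Commute.refl r).isUnit_mul_iff.1 this).1
  obtain ⟨ξ, hξ⟩ := hru
  have hn : ∀ x, ‖(ξ : H →L[ℂ] H) x‖ ^ 2 = (⟪T x, x⟫_ℂ).re := by
    intro x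
    rw [hξ, ← hrr]
    change _ = (⟪r (r x), x⟫_ℂ).re
    have : ⟪r (r x), x⟫_ℂ = ⟪r x, r x⟫_ℂ := by
      conv_lhs => rw [← hrs]
      rw [ContinuousLinearMap.star_eq_adjoint, ContinuousLinearMap.adjoint_inner_left]
      rw [← ContinuousLinearMap.star_eq_adjoint, hrs]
    rw [this, re_inner_self]
  have hξ1 : ‖(ξ : H →L[ℂ] H) - 1‖ ≤ t := by
    refine ContinuousLinearMap.opNorm_le_bound _ ht0 fun x => ?_
    rw [hξ]
    set z : H := (r - 1) x with hz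
    have e1 : (r + 1) z = (T - 1) x := by
      have : (r + 1) * (r - 1) = T - 1 := by rw [← hrr]; noncomm_ring
      rw [hz]
      change ((r + 1) * (r - 1)) x = _
      rw [this]
    have e2 : ‖z‖ ^ 2 ≤ (⟪(r + 1) z, z⟫_ℂ).re := by
      have h3 : (r + 1) z = r z + z := rfl
      rw [h3, inner_add_left, Complex.add_re, re_inner_self]
      have h4 : 0 ≤ (⟪r z, z⟫_ℂ).re := by
        have := (ContinuousLinearMap.nonneg_iff_isPositive r).1 hr0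
        exact (ContinuousLinearMap.isPositive_def.1 this).2 z
      linarith
    have e3 : (⟪(r + 1) z, z⟫_ℂ).re ≤ ‖(r + 1) z‖ * ‖z‖ :=
      (Complex.re_le_norm _).trans (norm_inner_le_norm _ _)
    have e4 : ‖z‖ ≤ ‖(r + 1) z‖ := by
      by_cases hz0 : ‖z‖ = 0
      · rw [hz0]; positivity
      · have : 0 < ‖z‖ := lt_of_le_of_ne (norm_nonneg _) (Ne.symm hz0)
        nlinarith
    calc ‖z‖ ≤ ‖(T - 1) x‖ := by rw [← e1]; exact e4
      _ ≤ t * ‖x‖ := ((T - 1).le_opNorm x).trans (mul_le_mul_of_nonneg_right hTt (norm_nonneg _))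
  refine ⟨ξ, by rw [hξ, hrs, hrr], hξ1, ?_⟩
  have hinv : ‖((ξ⁻¹ : (H →L[ℂ] H)ˣ) : H →L[ℂ] H)‖ ≤ 2 := by
    refine ContinuousLinearMap.opNorm_le_bound _ (by norm_num) fun y => ?_
    set x := ((ξ⁻¹ : (H →L[ℂ] H)ˣ) : H →L[ℂ] H) y with hx
    have hy : (ξ : H →L[ℂ] H) x = y := by
      rw [hx]
      change ((ξ : H →L[ℂ] H) * ((ξ⁻¹ : (H →L[ℂ] H)ˣ) : H →L[ℂ] H)) y = y
      rw [Units.mul_inv]
      rfl
    have h3 : (1 / 2 : ℝ) * ‖x‖ ^ 2 ≤ ‖y‖ ^ 2 := by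
      rw [← hy, hn]
      exact hlow x
    nlinarith [norm_nonneg x, norm_nonneg y]
  have e : ((ξ⁻¹ : (H →L[ℂ] H)ˣ) : H →L[ℂ] H) - 1
      = -(((ξ⁻¹ : (H →L[ℂ] H)ˣ) : H →L[ℂ] H) * ((ξ : H →L[ℂ] H) - 1)) := by
    rw [mul_sub, Units.inv_mul, mul_one]
    abel
  rw [e, norm_neg]
  calc _ ≤ ‖((ξ⁻¹ : (H →L[ℂ] H)ˣ) : H →L[ℂ] H)‖ * ‖(ξ : H →L[ℂ] H) - 1‖ := norm_mul_le _ _
    _ ≤ 2 * t := mul_le_mul hinv hξ1 (norm_nonneg _) (by norm_num)

end TH140.KC
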