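import Mathlib
import Pool.Agent.TH140.KC.Near

/-!
Stability of the similarity theorem for C*-algebras: a unital homomorphism of norm at most `1 + ε`
is similar to a *-homomorphism by means of an invertible operator within a universal constant times
`ε` of the identity.
-/

set_option autoImplicit false

open scoped InnerProductSpace ComplexConjugate ComplexOrder

noncomputable section

namespace TH140.KC

open H759R2.Kad

theorem near_aux (A : Type) [CStarAlgebra A] (H : Type) [NormedAddCommGroup H]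
    [InnerProductSpace ℂ H] [CompleteSpace H] (R : ℝ) (hR : R = 864 * 4 ^ 29)
    (u : A →ₐ[ℂ] (H →L[ℂ] H)) (ε : ℝ) (hε : 0 ≤ ε) (hε1 : ε ≤ 1)
    (hu : ∀ x, ‖u x‖ ≤ (1 + ε) * ‖x‖) :
    ∃ ξ : (H →L[ℂ] H)ˣ, ‖(ξ : H →L[ℂ] H) - 1‖ ≤ 48 * R ^ 4 * ε ∧
      ‖((ξ⁻¹ : (H →L[ℂ] H)ˣ) : H →L[ℂ] H) - 1‖ ≤ 48 * R ^ 4 * ε ∧
      ∀ x : A, (ξ : H →L[ℂ] H) * u (star x) * ((ξ⁻¹ : (H →L[ℂ] H)ˣ) : H →L[ℂ] H)
        = star ((ξ : H →L[ℂ] H) * u x * ((ξ⁻¹ : (H →L[ℂ] H)ˣ) : H →L[ℂ] H)) := by
  have hR1 : 1 ≤ R := by rw [hR]; norm_num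
  have hin : ∀ (π : A →⋆ₐ[ℂ] (H →L[ℂ] H))
    (D : A →ₗ[ℂ] (H →L[ℂ] H)), (∀ a b, D (a * b) = π a * D b + D a * π b) →
    ∀ (M : ℝ), 0 ≤ M → (∀ a, ‖D a‖ ≤ M * ‖a‖) →
    ∃ T : H →L[ℂ] H, ‖T‖ ≤ R * M ∧ ∀ a, D a = T * π a - π a * T := by
    intro π D hD M hM0 hM
    rw [hR]
    exact inner_unital A H π D hD M hM0 hM
  obtain ⟨S, S', hSS, hSS', hS, hS', hs⟩ := H770R2.Kad.fin_similar A H u.toLinearMap
    ⟨fun a b => map_mul u a b, map_one u⟩ (1 + ε) (by linarith) hu
  have hpow : 864 * (2 * (1 + ε)) ^ 29 ≤ R := by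
    rw [hR]
    have : (2 * (1 + ε)) ^ 29 ≤ (4 : ℝ) ^ 29 := pow_le_pow_left₀ (by positivity) (by linarith) 29
    linarith
  have hS := hS.trans hpow
  have hS' := hS'.trans hpow
  have hs : ∀ a : A, star (S * u a * S') = S * u (star a) * S' := hs
  clear hpow hR
  have hst : star S * star S' = 1 := by rw [← star_mul, hSS', star_one]
  have hst' : star S' * star S = 1 := by rw [← star_mul, hSS, star_one]
  let π : A →⋆ₐ[ℂ] (H →L[ℂ] H) :=
    { toFun := fun x => S * u x * S'
      map_one' := by rw [map_one, mul_one, hSS]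
      map_mul' := fun x y => by
        rw [map_mul]
        calc S * (u x * u y) * S' = S * u x * 1 * u y * S' := by simp only [mul_one, mul_assoc]
          _ = S * u x * (S' * S) * u y * S' := by rw [hSS']
          _ = _ := by simp only [mul_assoc]
      map_zero' := by simp
      map_add' := fun x y => by simp only [map_add, mul_add, add_mul]
      commutes' := fun r => by
        rw [AlgHom.commutes, Algebra.algebraMap_eq_smul_one, mul_smul_comm, smul_mul_assoc,
          mul_one, hSS]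
      map_star' := fun x => (hs x).symm }
  have hπ : ∀ x, π x = S * u x * S' := fun x => rfl
  have hρ : ∀ x, π x = star S' * star (u (star x)) * star S := by
    intro x
    have := hs (star x)
    rw [star_star] at this
    rw [hπ, ← this, star_mul, star_mul, mul_assoc]
  let D : A →ₗ[ℂ] (H →L[ℂ] H) :=
    { toFun := fun x => star S' * dmap u.toLinearMap x * S'
      map_add' := fun x y => by simp only [map_add, mul_add, add_mul]
      map_smul' := fun c x => by
        simp only [map_smul, mul_smul_comm, smul_mul_assoc, RingHom.id_apply] }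
  have hdm : ∀ x, dmap u.toLinearMap x = star (u (star x)) - u x := fun x => rfl
  have hDx : ∀ x, D x = star S' * (star (u (star x)) - u x) * S' := fun x => rfl
  have hD : ∀ a b, D (a * b) = π a * D b + D a * π b := by
    intro a b
    have e1 : π a * star S' = star S' * star (u (star a)) := by
      rw [hρ, mul_assoc, hst, mul_one]
    have e2 : S' * π b = u b * S' := by
      rw [hπ, ← mul_assoc, ← mul_assoc, hSS', one_mul]
    rw [hDx, hDx, hDx]
    calc star S' * (star (u (star (a * b))) - u (a * b)) * S'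
        = star S' * (star (u (star a)) * star (u (star b)) - u a * u b) * S' := by
          rw [star_mul, map_mul, map_mul, star_mul]
      _ = star S' * star (u (star a)) * (star (u (star b)) - u b) * S'
          + star S' * (star (u (star a)) - u a) * (u b * S') := by noncomm_ring
      _ = _ := by rw [← e1, ← e2]; simp only [mul_assoc]
  have hSn' : ‖S'‖ * ‖S'‖ ≤ R := by rw [← sq]; exact hS'
  have hSn : ‖S‖ * ‖S‖ ≤ R := by rw [← sq]; exact hS
  have hDb : ∀ a, ‖D a‖ ≤ (12 * R * ε) * ‖a‖ := by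
    intro a
    rw [hDx]
    have h1 : ‖star (u (star a)) - u a‖ ≤ 12 * ε * ‖a‖ := by
      rw [norm_sub_rev]
      exact defect u ε hε hε1 hu a
    calc ‖star S' * (star (u (star a)) - u a) * S'‖
        ≤ ‖star S'‖ * ‖star (u (star a)) - u a‖ * ‖S'‖ :=
          (norm_mul_le _ _).trans (mul_le_mul_of_nonneg_right (norm_mul_le _ _) (norm_nonneg _))
      _ = (‖S'‖ * ‖S'‖) * ‖star (u (star a)) - u a‖ := by rw [norm_star]; ring
      _ ≤ R * (12 * ε * ‖a‖) := mul_le_mul hSn' h1 (norm_nonneg _) (by linarith)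
      _ = _ := by ring
  obtain ⟨T, hTn, hT⟩ := hin π D hD (12 * R * ε) (by positivity) hDb
  set Z : H →L[ℂ] H := star S * T * S with hZ
  set t : ℝ := 12 * R ^ 3 * ε with ht
  have hZn : ‖Z‖ ≤ t := by
    calc ‖Z‖ ≤ ‖star S‖ * ‖T‖ * ‖S‖ :=
          (norm_mul_le _ _).trans (mul_le_mul_of_nonneg_right (norm_mul_le _ _) (norm_nonneg _))
      _ = (‖S‖ * ‖S‖) * ‖T‖ := by rw [norm_star]; ring
      _ ≤ R * (R * (12 * R * ε)) := mul_le_mul hSn hTn (norm_nonneg _) (by linarith)
      _ = t := by rw [ht]; ring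
  have hVu : ∀ x, (1 + Z) * u x = star (u (star x)) * (1 + Z) := by
    intro x
    have e1 : star S * π x = star (u (star x)) * star S := by
      rw [hρ, ← mul_assoc, ← mul_assoc, hst, one_mul]
    have e2 : π x * S = S * u x := by
      rw [hπ, mul_assoc, hSS', mul_one]
    have e3 : star (u (star x)) - u x = Z * u x - star (u (star x)) * Z := by
      calc star (u (star x)) - u x
          = (star S * star S') * (star (u (star x)) - u x) * (S' * S) := by
            rw [hst, hSS', one_mul, mul_one]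
        _ = star S * D x * S := by rw [hDx]; simp only [mul_assoc]
        _ = star S * (T * π x - π x * T) * S := by rw [hT]
        _ = star S * T * (π x * S) - (star S * π x) * T * S := by noncomm_ring
        _ = _ := by rw [e1, e2, hZ]; simp only [mul_assoc]
    have e4 : (1 + Z) * u x = u x + Z * u x := by rw [add_mul, one_mul]
    have e5 : star (u (star x)) * (1 + Z) = star (u (star x)) + star (u (star x)) * Z := by
      rw [mul_add, mul_one]
    rw [e4, e5, sub_eq_sub_iff_add_eq_add.1 e3, add_comm]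
  have hVu' : ∀ x, star (1 + Z) * u x = star (u (star x)) * star (1 + Z) := by
    intro x
    have := congrArg star (hVu (star x))
    rw [star_mul, star_mul, star_star, star_star] at this
    exact this.symm
  set V : H →L[ℂ] H := (2⁻¹ : ℂ) • ((1 + Z) + star (1 + Z)) with hV
  have hVs : star V = V := by
    rw [hV, star_smul, star_add, star_star, add_comm (star (1 + Z))]
    congr 1
    simp
  have hV1 : ‖V - 1‖ ≤ t := by
    have e : V - 1 = (2⁻¹ : ℂ) • (Z + star Z) := by
      have h2 : (1 : H →L[ℂ] H) = (2⁻¹ : ℂ) • ((1 : H →L[ℂ] H) + 1) := by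
        rw [← two_smul ℂ (1 : H →L[ℂ] H), smul_smul]
        norm_num
      conv_lhs => rw [h2]
      rw [hV, ← smul_sub, star_add, star_one]
      congr 1
      abel
    rw [e, norm_smul]
    have h2 : ‖Z + star Z‖ ≤ 2 * t := by
      refine (norm_add_le _ _).trans ?_
      rw [norm_star]
      linarith
    have h3 : ‖(2⁻¹ : ℂ)‖ = 2⁻¹ := by simp
    rw [h3]
    linarith
  have hVx : ∀ x, V * u (star x) = star (u x) * V := by
    intro x
    have a1 := hVu (star x)
    have a2 := hVu' (star x)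
    rw [star_star] at a1 a2
    rw [hV, smul_mul_assoc, mul_smul_comm, add_mul, mul_add, a1, a2]
  have hR3 : 1 ≤ R ^ 3 := one_le_pow₀ hR1
  have hR4 : R ^ 3 ≤ R ^ 4 := pow_le_pow_right₀ hR1 (by norm_num)
  by_cases htt : t ≤ 1 / 2
  · obtain ⟨ξ, h1, h2, h3⟩ := root_near V hVs t htt hV1
    have hb : t ≤ 48 * R ^ 4 * ε := by
      rw [ht]
      have : 12 * R ^ 3 ≤ 48 * R ^ 4 := by linarith
      exact mul_le_mul_of_nonneg_right this hε
    have hb2 : 2 * t ≤ 48 * R ^ 4 * ε := by
      rw [ht]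
      have : 24 * R ^ 3 ≤ 48 * R ^ 4 := by linarith
      nlinarith
    refine ⟨ξ, h2.trans hb, h3.trans hb2, fun x => ?_⟩
    rw [sim_iff, h1]
    exact hVx x
  · have hcon : 2 * R ≤ 48 * R ^ 4 * ε := by
      have h4 : 1 / 2 < 12 * R ^ 3 * ε := not_le.1 htt
      have : 4 * R * (1 / 2) ≤ 4 * R * (12 * R ^ 3 * ε) :=
        mul_le_mul_of_nonneg_left h4.le (by positivity)
      calc 2 * R = 4 * R * (1 / 2) := by ring
        _ ≤ _ := this
        _ = _ := by ring
    have hbd : ∀ W : H →L[ℂ] H, ‖W‖ * ‖W‖ ≤ R → ‖W - 1‖ ≤ 2 * R := by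
      intro W hW
      have h5 : ‖(1 : H →L[ℂ] H)‖ ≤ 1 := ContinuousLinearMap.norm_id_le
      have h6 : ‖W‖ ≤ R := by nlinarith [norm_nonneg W]
      refine (norm_sub_le _ _).trans ?_
      linarith
    refine ⟨⟨S, S', hSS, hSS'⟩, (hbd S hSn).trans hcon, (hbd S' hSn').trans hcon, fun x => ?_⟩
    exact (hs x).symm

end TH140.KC
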