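import Mathlib

/-!
Jordan homomorphisms of a ring: splitting into a homomorphism and an antihomomorphism in the
presence of an idempotent `e` with `v v' = e` for some `v ∈ e R (1 - e)`, `v' ∈ (1 - e) R e`, and
`1 - e - e₄ = y₁ x₁ + y₂ x₂` for a central idempotent `e₄`.
-/

set_option autoImplicit false

namespace TH140.KC

universe u v

/-- Unital Jordan homomorphism into a ring without 2-torsion. -/
structure JHom {R : Type u} {B : Type v} [Ring R] [Ring B] (W : R →+ B) : Prop where
  sq : ∀ x, W (x * x) = W x * W x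
  one : W 1 = 1
  tor : ∀ b : B, b + b = 0 → b = 0

section

variable {R : Type u} {B : Type v} [Ring R] [Ring B] {W : R →+ B}

theorem JHom.half (h : JHom W) {a b : B} (hab : a + a = b + b) : a = b := by
  have : (a - b) + (a - b) = 0 := by
    have : a - b + (a - b) = (a + a) - (b + b) := by abel
    rw [this, hab, sub_self]
  exact sub_eq_zero.1 (h.tor _ this)

theorem JHom.jmul (h : JHom W) (x y : R) : W (x * y + y * x) = W x * W y + W y * W x := by
  have h1 := h.sq (x + y)
  have e1 : (x + y) * (x + y) = x * x + (x * y + y * x) + y * y := by noncomm_ring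
  have e2 : (W x + W y) * (W x + W y) = W x * W x + (W x * W y + W y * W x) + W y * W y := by
    noncomm_ring
  rw [e1, map_add, map_add, h.sq, h.sq, map_add W x y, e2] at h1
  exact add_left_cancel (add_right_cancel h1)

theorem JHom.tri (h : JHom W) (x y : R) : W (x * y * x) = W x * W y * W x := by
  apply h.half
  have e1 : x * y * x + x * y * x = (x * (x * y + y * x) + (x * y + y * x) * x) -
      ((x * x) * y + y * (x * x)) := by noncomm_ring
  rw [← map_add, e1, map_sub, h.jmul, h.jmul, h.jmul, h.sq]
  noncomm_ring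

theorem JHom.cent (h : JHom W) {z : R} (hz : z * z = z) (hc : ∀ x, z * x = x * z) (x : R) :
    W (z * x) = W z * W x ∧ W (z * x) = W x * W z := by
  have hP : W z * W z = W z := by rw [← h.sq, hz]
  have h1 : W (z * x) + W (z * x) = W z * W x + W x * W z := by
    rw [← h.jmul, ← hc x, map_add]
  have h2 : W (z * x) = W z * W x * W z := by
    rw [← h.tri, mul_assoc, ← hc x, ← mul_assoc, hz]
  constructor
  · have h3 : W z * (W (z * x) + W (z * x)) = W z * (W z * W x + W x * W z) := by rw [h1]
    rw [h2] at h3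
    have e1 : W z * (W z * W x * W z + W z * W x * W z) =
        (W z * W z) * W x * W z + (W z * W z) * W x * W z := by noncomm_ring
    have e2 : W z * (W z * W x + W x * W z) = (W z * W z) * W x + W z * W x * W z := by
      noncomm_ring
    rw [e1, e2, hP] at h3
    rw [h2]
    exact add_right_cancel h3
  · have h3 : (W (z * x) + W (z * x)) * W z = (W z * W x + W x * W z) * W z := by rw [h1]
    rw [h2] at h3
    have e1 : (W z * W x * W z + W z * W x * W z) * W z =
        W z * W x * (W z * W z) + W z * W x * (W z * W z) := by noncomm_ring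
    have e2 : (W z * W x + W x * W z) * W z = W z * W x * W z + W x * (W z * W z) := by
      noncomm_ring
    rw [e1, e2, hP] at h3
    rw [h2]
    exact add_left_cancel h3

/-- Upper right block. -/
def BX (e x : R) : Prop := e * x = x ∧ x * e = 0
/-- Lower left block. -/
def BY (e y : R) : Prop := y * e = y ∧ e * y = 0
/-- Upper left block. -/
def BD (e a : R) : Prop := e * a = a ∧ a * e = a
/-- Lower right block. -/
def BO (e b : R) : Prop := e * b = 0 ∧ b * e = 0

variable {e : R}

theorem x_add (h : JHom W) {x : R} (hx : BX e x) : W x = W e * W x + W x * W e := by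
  rw [← h.jmul, hx.1, hx.2, add_zero]

theorem y_add (h : JHom W) {y : R} (hy : BY e y) : W y = W e * W y + W y * W e := by
  rw [← h.jmul, hy.1, hy.2, zero_add]

theorem x_mid (h : JHom W) {x : R} (hx : BX e x) : W e * W x * W e = 0 := by
  rw [← h.tri, hx.1, hx.2, map_zero]

theorem y_mid (h : JHom W) {y : R} (hy : BY e y) : W e * W y * W e = 0 := by
  rw [← h.tri, hy.2, zero_mul, map_zero]

theorem EE (h : JHom W) (he : e * e = e) : W e * W e = W e := by rw [← h.sq, he]

theorem o_left (h : JHom W) (he : e * e = e) {b : R} (hb : BO e b) :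
    W e * W b = 0 ∧ W b * W e = 0 := by
  have h1 : W e * W b + W b * W e = 0 := by rw [← h.jmul, hb.1, hb.2, add_zero, map_zero]
  have h2 : W e * W b * W e = 0 := by rw [← h.tri, hb.1, zero_mul, map_zero]
  have hE := EE h he
  constructor
  · have h3 : W e * (W e * W b + W b * W e) = W e * W b := by
      rw [mul_add, ← mul_assoc, hE, ← mul_assoc, h2, add_zero]
    rw [← h3, h1, mul_zero]
  · have h3 : (W e * W b + W b * W e) * W e = W b * W e := by
      rw [add_mul, h2, zero_add, mul_assoc, hE]
    rw [← h3, h1, zero_mul]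

theorem d_left (h : JHom W) (he : e * e = e) {a : R} (ha : BD e a) :
    W e * W a = W a ∧ W a * W e = W a := by
  have h2 : W e * W a * W e = W a := by rw [← h.tri, ha.1, ha.2]
  have hE := EE h he
  constructor
  · calc W e * W a = W e * (W e * W a * W e) := by rw [h2]
      _ = (W e * W e) * W a * W e := by noncomm_ring
      _ = W a := by rw [hE, h2]
  · calc W a * W e = (W e * W a * W e) * W e := by rw [h2]
      _ = W e * W a * (W e * W e) := by noncomm_ring
      _ = W a := by rw [hE, h2]

/-! ### Products of blocks -/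

theorem bd_x {a x : R} (ha : BD e a) (hx : BX e x) : BX e (a * x) ∧ x * a = 0 := by
  refine ⟨⟨by rw [← mul_assoc, ha.1], by rw [mul_assoc, hx.2, mul_zero]⟩, ?_⟩
  rw [← ha.1, ← mul_assoc, hx.2, zero_mul]

theorem bx_o {x b : R} (hx : BX e x) (hb : BO e b) : BX e (x * b) ∧ b * x = 0 := by
  refine ⟨⟨by rw [← mul_assoc, hx.1], by rw [mul_assoc, hb.2, mul_zero]⟩, ?_⟩
  rw [← hx.1, ← mul_assoc, hb.2, zero_mul]

theorem bo_y {b y : R} (hb : BO e b) (hy : BY e y) : BY e (b * y) ∧ y * b = 0 := by
  refine ⟨⟨by rw [mul_assoc, hy.1], by rw [← mul_assoc, hb.1, zero_mul]⟩, ?_⟩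
  rw [← hy.1, mul_assoc, hb.1, mul_zero]

theorem by_d {y a : R} (hy : BY e y) (ha : BD e a) : BY e (y * a) ∧ a * y = 0 := by
  refine ⟨⟨by rw [mul_assoc, ha.2], by rw [← mul_assoc, hy.2, zero_mul]⟩, ?_⟩
  rw [← ha.2, mul_assoc, hy.2, mul_zero]

theorem bx_y {x y : R} (hx : BX e x) (hy : BY e y) : BD e (x * y) :=
  ⟨by rw [← mul_assoc, hx.1], by rw [mul_assoc, hy.1]⟩

theorem by_x {y x : R} (hy : BY e y) (hx : BX e x) : BO e (y * x) :=
  ⟨by rw [← mul_assoc, hy.2, zero_mul], by rw [mul_assoc, hx.2, mul_zero]⟩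

theorem bx_x {x x' : R} (hx : BX e x) (hx' : BX e x') : x * x' = 0 := by
  rw [← hx'.1, ← mul_assoc, hx.2, zero_mul]

theorem by_y {y y' : R} (hy : BY e y) (hy' : BY e y') : y * y' = 0 := by
  rw [← hy.1, mul_assoc, hy'.2, mul_zero]

theorem bd_o {a b : R} (ha : BD e a) (hb : BO e b) : a * b = 0 ∧ b * a = 0 := by
  constructor
  · rw [← ha.2, mul_assoc, hb.1, mul_zero]
  · rw [← ha.1, ← mul_assoc, hb.2, zero_mul]

/-! ### `W` on products of blocks -/

theorem W_ax (h : JHom W) (he : e * e = e) {a x : R} (ha : BD e a) (hx : BX e x) :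
    W e * W (a * x) = W a * W x ∧ W (a * x) * W e = W x * W a := by
  have h1 : W (a * x) = W a * W x + W x * W a := by
    rw [← h.jmul, (bd_x ha hx).2, add_zero]
  obtain ⟨a1, a2⟩ := d_left h he ha
  have m := x_mid h hx
  constructor
  · rw [h1, mul_add, ← mul_assoc, a1]
    have : W e * (W x * W a) = (W e * W x * W e) * W a := by
      nth_rewrite 1 [← a1]; noncomm_ring
    rw [this, m, zero_mul, add_zero]
  · rw [h1, add_mul, mul_assoc (W x), a2]
    have : W a * W x * W e = W a * (W e * W x * W e) := by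
      nth_rewrite 1 [← a2]; noncomm_ring
    rw [this, m, mul_zero, zero_add]

theorem W_xb (h : JHom W) (he : e * e = e) {x b : R} (hx : BX e x) (hb : BO e b) :
    W e * W (x * b) = W e * W x * W b ∧ W (x * b) * W e = W b * W x * W e := by
  have h1 : W (x * b) = W x * W b + W b * W x := by
    rw [← h.jmul, (bx_o hx hb).2, add_zero]
  obtain ⟨b1, b2⟩ := o_left h he hb
  constructor
  · rw [h1, mul_add, ← mul_assoc, ← mul_assoc, b1, zero_mul, add_zero]
  · rw [h1, add_mul, mul_assoc (W x), b2, mul_zero, zero_add]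

theorem W_by (h : JHom W) (he : e * e = e) {b y : R} (hb : BO e b) (hy : BY e y) :
    W (b * y) * W e = W b * W y * W e ∧ W e * W (b * y) = W e * W y * W b := by
  have h1 : W (b * y) = W b * W y + W y * W b := by
    rw [← h.jmul, (bo_y hb hy).2, add_zero]
  obtain ⟨b1, b2⟩ := o_left h he hb
  constructor
  · rw [h1, add_mul, mul_assoc (W y), b2, mul_zero, add_zero]
  · rw [h1, mul_add, ← mul_assoc, b1, zero_mul, zero_add, mul_assoc]

theorem W_ya (h : JHom W) (he : e * e = e) {y a : R} (hy : BY e y) (ha : BD e a) :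
    W (y * a) * W e = W y * W a ∧ W e * W (y * a) = W a * W y := by
  have h1 : W (y * a) = W y * W a + W a * W y := by
    rw [← h.jmul, (by_d hy ha).2, add_zero]
  obtain ⟨a1, a2⟩ := d_left h he ha
  have m := y_mid h hy
  constructor
  · rw [h1, add_mul, mul_assoc (W y), a2]
    have : W a * W y * W e = W a * (W e * W y * W e) := by
      nth_rewrite 1 [← a2]; noncomm_ring
    rw [this, m, mul_zero, add_zero]
  · rw [h1, mul_add, ← mul_assoc (W e) (W a), a1]
    have : W e * (W y * W a) = (W e * W y * W e) * W a := by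
      nth_rewrite 1 [← a1]; noncomm_ring
    rw [this, m, zero_mul, zero_add]

/-- Product of two off-diagonal images. -/
theorem off_mul {E X Y : B} (hX : X = E * X + X * E) (hY : Y = E * Y + Y * E)
    (mX : E * X * E = 0) (mY : E * Y * E = 0) (hE : E * E = E) :
    X * Y = E * X * Y * E + X * E * Y := by
  calc X * Y = (E * X + X * E) * (E * Y + Y * E) := by rw [← hX, ← hY]
    _ = (E * X * E) * Y + E * X * Y * E + X * (E * E) * Y + X * (E * Y * E) := by noncomm_ring
    _ = _ := by rw [mX, mY, hE]; noncomm_ring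

theorem W_xy (h : JHom W) (he : e * e = e) {x y : R} (hx : BX e x) (hy : BY e y) :
    W (x * y) = W e * W x * W y * W e + W e * W y * W x * W e ∧
      W (y * x) = W y * W e * W x + W x * W e * W y := by
  have hE := EE h he
  have h1 : W (x * y) + W (y * x) = W x * W y + W y * W x := by rw [← h.jmul, map_add]
  obtain ⟨a1, a2⟩ := d_left h he (bx_y hx hy)
  obtain ⟨b1, b2⟩ := o_left h he (by_x hy hx)
  have h2 : W (x * y) = W e * W x * W y * W e + W e * W y * W x * W e := by
    calc W (x * y) = W e * (W (x * y) + W (y * x)) * W e := by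
          rw [mul_add, add_mul, b1, zero_mul, add_zero, a1, a2]
      _ = _ := by rw [h1]; noncomm_ring
  refine ⟨h2, ?_⟩
  have p1 := off_mul (x_add h hx) (y_add h hy) (x_mid h hx) (y_mid h hy) hE
  have p2 := off_mul (y_add h hy) (x_add h hx) (y_mid h hy) (x_mid h hx) hE
  have h3 : W (y * x) = W x * W y + W y * W x - W (x * y) := by rw [← h1]; abel
  rw [h3, h2, p1, p2]
  abel

end

end TH140.KC
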