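import Mathlib
import Pool.Agent.TH140.KC.JAlg

/-!
Orthogonality of the two parts of a Jordan homomorphism, and the splitting.
-/

set_option autoImplicit false

namespace TH140.KC

universe u v

section

variable {R : Type u} {B : Type v} [Ring R] [Ring B] {W : R →+ B} {e v v' : R}

theorem x_anti (h : JHom W) {x w : R} (hx : BX e x) (hw : BX e w) :
    W x * W w + W w * W x = 0 := by
  rw [← h.jmul, bx_x hx hw, bx_x hw hx, add_zero, map_zero]

theorem y_anti (h : JHom W) {x w : R} (hx : BY e x) (hw : BY e w) :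
    W x * W w + W w * W x = 0 := by
  rw [← h.jmul, by_y hx hw, by_y hw hx, add_zero, map_zero]

theorem T0 (h : JHom W) (he : e * e = e) (hv : BX e v) (hv' : BY e v') (hvv : v * v' = e)
    {w : R} (hw : BX e w) : W e * W v * W w * W e = 0 := by
  have hb := by_x hv' hw
  have hwb : v * (v' * w) = w := by rw [← mul_assoc, hvv, hw.1]
  obtain ⟨r1, r2⟩ := W_xb h he hv hb
  rw [hwb] at r1 r2
  have h1 : W e * W v * W w * W e = W e * W w * W v * W e := by
    calc W e * W v * W w * W e = W e * W v * (W w * W e) := by noncomm_ring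
      _ = (W e * W v * W (v' * w)) * W v * W e := by rw [r2]; noncomm_ring
      _ = _ := by rw [← r1]
  apply h.tor
  nth_rewrite 2 [h1]
  calc W e * W v * W w * W e + W e * W w * W v * W e = W e * (W v * W w + W w * W v) * W e := by
        noncomm_ring
    _ = 0 := by rw [x_anti h hv hw, mul_zero, zero_mul]

theorem T1 (h : JHom W) (he : e * e = e) (hv : BX e v) (hv' : BY e v') (hvv : v * v' = e)
    {x w : R} (hx : BX e x) (hw : BX e w) : W e * W x * W w * W e = 0 := by
  have hb := by_x hv' hx
  have hwb : v * (v' * x) = x := by rw [← mul_assoc, hvv, hx.1]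
  obtain ⟨r1, -⟩ := W_xb h he hv hb
  obtain ⟨-, r2⟩ := W_xb h he hw hb
  rw [hwb] at r1
  calc W e * W x * W w * W e = W e * W v * (W (v' * x) * W w * W e) := by rw [r1]; noncomm_ring
    _ = W e * W v * W (w * (v' * x)) * W e := by rw [← r2]; noncomm_ring
    _ = 0 := T0 h he hv hv' hvv (bx_o hw hb).1

theorem S1 (h : JHom W) (he : e * e = e) (hv : BX e v) (hv' : BY e v') (hvv : v * v' = e)
    {x w : R} (hx : BX e x) (hw : BX e w) : W x * W e * W w = 0 := by
  have hE := EE h he
  have s0 : W v * W e * W v = 0 := by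
    have p := off_mul (x_add h hv) (x_add h hv) (x_mid h hv) (x_mid h hv) hE
    rw [T1 h he hv hv' hvv hv hv, zero_add, ← h.sq, bx_x hv hv, map_zero] at p
    exact p.symm
  have s1 : ∀ w : R, BX e w → W v * W e * W w = 0 := by
    intro w hw
    have hb := by_x hv' hw
    have hwb : v * (v' * w) = w := by rw [← mul_assoc, hvv, hw.1]
    obtain ⟨r1, -⟩ := W_xb h he hv hb
    rw [hwb] at r1
    calc W v * W e * W w = W v * (W e * W w) := by noncomm_ring
      _ = (W v * W e * W v) * W (v' * w) := by rw [r1]; noncomm_ring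
      _ = 0 := by rw [s0, zero_mul]
  have hb := by_x hv' hx
  have hwb : v * (v' * x) = x := by rw [← mul_assoc, hvv, hx.1]
  obtain ⟨-, r2⟩ := W_xb h he hv hb
  rw [hwb] at r2
  rw [r2]
  calc W (v' * x) * W v * W e * W w = W (v' * x) * (W v * W e * W w) := by noncomm_ring
    _ = 0 := by rw [s1 w hw, mul_zero]

theorem T0' (h : JHom W) (he : e * e = e) (hv : BX e v) (hv' : BY e v') (hvv : v * v' = e)
    {w : R} (hw : BY e w) : W e * W v' * W w * W e = 0 := by
  have hb := by_x hw hv
  have hwb : w * v * v' = w := by rw [mul_assoc, hvv, hw.1]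
  obtain ⟨r1, r2⟩ := W_by h he hb hv'
  rw [hwb] at r1 r2
  have h1 : W e * W v' * W w * W e = W e * W w * W v' * W e := by
    calc W e * W v' * W w * W e = W e * W v' * (W w * W e) := by noncomm_ring
      _ = (W e * W v' * W (w * v)) * W v' * W e := by rw [r1]; noncomm_ring
      _ = _ := by rw [← r2]
  apply h.tor
  nth_rewrite 2 [h1]
  calc W e * W v' * W w * W e + W e * W w * W v' * W e
      = W e * (W v' * W w + W w * W v') * W e := by noncomm_ring
    _ = 0 := by rw [y_anti h hv' hw, mul_zero, zero_mul]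

theorem T1' (h : JHom W) (he : e * e = e) (hv : BX e v) (hv' : BY e v') (hvv : v * v' = e)
    {x w : R} (hx : BY e x) (hw : BY e w) : W e * W x * W w * W e = 0 := by
  have hb := by_x hx hv
  have hwb : x * v * v' = x := by rw [mul_assoc, hvv, hx.1]
  obtain ⟨-, r1⟩ := W_by h he hb hv'
  obtain ⟨r2, -⟩ := W_by h he hb hw
  rw [hwb] at r1
  calc W e * W x * W w * W e = W e * W v' * (W (x * v) * W w * W e) := by rw [r1]; noncomm_ring
    _ = W e * W v' * W (x * v * w) * W e := by rw [← r2]; noncomm_ring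
    _ = 0 := T0' h he hv hv' hvv (bo_y hb hw).1

theorem S1' (h : JHom W) (he : e * e = e) (hv : BX e v) (hv' : BY e v') (hvv : v * v' = e)
    {x w : R} (hx : BY e x) (hw : BY e w) : W x * W e * W w = 0 := by
  have hE := EE h he
  have s0 : W v' * W e * W v' = 0 := by
    have p := off_mul (y_add h hv') (y_add h hv') (y_mid h hv') (y_mid h hv') hE
    rw [T1' h he hv hv' hvv hv' hv', zero_add, ← h.sq, by_y hv' hv', map_zero] at p
    exact p.symm
  have s1 : ∀ w : R, BY e w → W v' * W e * W w = 0 := by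
    intro w hw
    have hb := by_x hw hv
    have hwb : w * v * v' = w := by rw [mul_assoc, hvv, hw.1]
    obtain ⟨-, r1⟩ := W_by h he hb hv'
    rw [hwb] at r1
    calc W v' * W e * W w = W v' * (W e * W w) := by noncomm_ring
      _ = (W v' * W e * W v') * W (w * v) := by rw [r1]; noncomm_ring
      _ = 0 := by rw [s0, zero_mul]
  have hb := by_x hx hv
  have hwb : x * v * v' = x := by rw [mul_assoc, hvv, hx.1]
  obtain ⟨r2, -⟩ := W_by h he hb hv'
  rw [hwb] at r2
  rw [r2]
  calc W (x * v) * W v' * W e * W w = W (x * v) * (W v' * W e * W w) := by noncomm_ring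
    _ = 0 := by rw [s1 w hw, mul_zero]

theorem xx0 (h : JHom W) (he : e * e = e) (hv : BX e v) (hv' : BY e v') (hvv : v * v' = e)
    {x w : R} (hx : BX e x) (hw : BX e w) : W x * W w = 0 := by
  rw [off_mul (x_add h hx) (x_add h hw) (x_mid h hx) (x_mid h hw) (EE h he),
    T1 h he hv hv' hvv hx hw, S1 h he hv hv' hvv hx hw, add_zero]

theorem yy0 (h : JHom W) (he : e * e = e) (hv : BX e v) (hv' : BY e v') (hvv : v * v' = e)
    {x w : R} (hx : BY e x) (hw : BY e w) : W x * W w = 0 := by
  rw [off_mul (y_add h hx) (y_add h hw) (y_mid h hx) (y_mid h hw) (EE h he),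
    T1' h he hv hv' hvv hx hw, S1' h he hv hv' hvv hx hw, add_zero]

end

end TH140.KC
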