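import Mathlib
import Pool.Agent.TH140.KC.JAlg2

/-!
The splitting of a Jordan homomorphism into a homomorphism and an antihomomorphism.
-/

set_option autoImplicit false

namespace TH140.KC

universe u v

section

variable {R : Type u} {B : Type v} [Ring R] [Ring B] {W : R →+ B}

/-- The data for the splitting. -/
structure SD (W : R →+ B) (e e₄ v v' x₁ x₂ y₁ y₂ : R) : Prop where
  he : e * e = e
  hv : BX e v
  hv' : BY e v'
  hvv : v * v' = e
  h4 : e₄ * e₄ = e₄
  c4 : ∀ x, e₄ * x = x * e₄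
  h4e : e₄ * e = 0
  hx1 : BX e x₁
  hx2 : BX e x₂
  hy1 : BY e y₁
  hy2 : BY e y₂
  sum : y₁ * x₁ + y₂ * x₂ = 1 - e - e₄
  hom4 : ∀ r s, W (e₄ * (r * s)) = W (e₄ * r) * W s

theorem blocks {e : R} (he : e * e = e) (r : R) :
    ∃ a x y b, BD e a ∧ BX e x ∧ BY e y ∧ BO e b ∧ r = a + x + y + b := by
  refine ⟨e * r * e, e * r * (1 - e), (1 - e) * r * e, (1 - e) * r * (1 - e), ⟨?_, ?_⟩, ⟨?_, ?_⟩,
    ⟨?_, ?_⟩, ⟨?_, ?_⟩, ?_⟩
  · calc e * (e * r * e) = (e * e) * r * e := by noncomm_ring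
      _ = _ := by rw [he]
  · calc e * r * e * e = e * r * (e * e) := by noncomm_ring
      _ = _ := by rw [he]
  · calc e * (e * r * (1 - e)) = (e * e) * r * (1 - e) := by noncomm_ring
      _ = _ := by rw [he]
  · calc e * r * (1 - e) * e = e * r * (e - e * e) := by noncomm_ring
      _ = _ := by rw [he, sub_self, mul_zero]
  · calc (1 - e) * r * e * e = (1 - e) * r * (e * e) := by noncomm_ring
      _ = _ := by rw [he]
  · calc e * ((1 - e) * r * e) = (e - e * e) * r * e := by noncomm_ring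
      _ = _ := by rw [he, sub_self, zero_mul, zero_mul]
  · calc e * ((1 - e) * r * (1 - e)) = (e - e * e) * r * (1 - e) := by noncomm_ring
      _ = _ := by rw [he, sub_self, zero_mul, zero_mul]
  · calc (1 - e) * r * (1 - e) * e = (1 - e) * r * (e - e * e) := by noncomm_ring
      _ = _ := by rw [he, sub_self, mul_zero]
  · noncomm_ring

variable {e e₄ v v' x₁ x₂ y₁ y₂ : R}

/-- The idempotent of the homomorphic part. -/
def ff (W : R →+ B) (e e₄ v v' x₁ x₂ y₁ y₂ : R) : B :=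
  W e * W v * W v' * W e + (W y₁ * W e * W x₁ + W y₂ * W e * W x₂) + W e₄

namespace SD

variable (d : SD W e e₄ v v' x₁ x₂ y₁ y₂)

include d

theorem one' (h : JHom W) : W y₁ * W e * W x₁ + W y₂ * W e * W x₂ =
    1 - W e - W e₄ - W x₁ * W e * W y₁ - W x₂ * W e * W y₂ := by
  have h1 : W (y₁ * x₁) + W (y₂ * x₂) = 1 - W e - W e₄ := by
    rw [← map_add, d.sum, map_sub, map_sub, h.one]
  rw [(W_xy h d.he d.hx1 d.hy1).2, (W_xy h d.he d.hx2 d.hy2).2] at h1
  rw [← h1]
  abel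

theorem evv (h : JHom W) : W e * W v * W v' * W e = W e - W e * W v' * W v * W e := by
  have := (W_xy h d.he d.hv d.hv').1
  rw [d.hvv] at this
  rw [eq_sub_iff_add_eq]
  exact this.symm

theorem four (h : JHom W) (r : R) : W (e₄ * r) = W e₄ * W r ∧ W (e₄ * r) = W r * W e₄ :=
  h.cent d.h4 d.c4 r

theorem four0 (h : JHom W) {r : R} (hr : e * r = r ∨ r * e = r) :
    W e₄ * W r = 0 ∧ W r * W e₄ = 0 := by
  have h0 : e₄ * r = 0 := by
    rcases hr with hr | hr
    · rw [← hr, ← mul_assoc, d.h4e, zero_mul]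
    · rw [d.c4, ← hr, mul_assoc, ← d.c4, d.h4e, mul_zero]
  obtain ⟨h1, h2⟩ := d.four h r
  rw [h0, map_zero] at h1 h2
  exact ⟨h1.symm, h2.symm⟩

theorem fx (h : JHom W) {x : R} (hx : BX e x) :
    ff W e e₄ v v' x₁ x₂ y₁ y₂ * W x = W e * W x ∧
      W x * ff W e e₄ v v' x₁ x₂ y₁ y₂ = W e * W x := by
  obtain ⟨z1, z2⟩ := d.four0 h (Or.inl hx.1)
  have s := fun {x w} => S1 (x := x) (w := w) h d.he d.hv d.hv' d.hvv
  have t := fun {x w} => xx0 (x := x) (w := w) h d.he d.hv d.hv' d.hvv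
  constructor
  · rw [ff, add_mul, add_mul, add_mul, z1, d.evv h]
    calc (W e - W e * W v' * W v * W e) * W x +
          (W y₁ * W e * W x₁ * W x + W y₂ * W e * W x₂ * W x) + 0
        = W e * W x - W e * W v' * (W v * W e * W x) +
          (W y₁ * W e * (W x₁ * W x) + W y₂ * W e * (W x₂ * W x)) := by noncomm_ring
      _ = _ := by rw [s d.hv hx, t d.hx1 hx, t d.hx2 hx]; simp
  · rw [ff, mul_add, mul_add, z2, d.one' h]
    calc W x * (W e * W v * W v' * W e) + W x * (1 - W e - W e₄ - W x₁ * W e * W y₁ -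
          W x₂ * W e * W y₂) + 0
        = (W x * W e * W v) * W v' * W e + W x - W x * W e - W x * W e₄ -
          (W x * W x₁) * W e * W y₁ - (W x * W x₂) * W e * W y₂ := by noncomm_ring
      _ = W x - W x * W e := by rw [s hx d.hv, z2, t hx d.hx1, t hx d.hx2]; simp
      _ = W e * W x := by nth_rewrite 1 [x_add h hx]; abel

theorem fy (h : JHom W) {y : R} (hy : BY e y) :
    ff W e e₄ v v' x₁ x₂ y₁ y₂ * W y = W y * W e ∧
      W y * ff W e e₄ v v' x₁ x₂ y₁ y₂ = W y * W e := by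
  obtain ⟨z1, z2⟩ := d.four0 h (Or.inr hy.1)
  have s := fun {x w} => S1' (x := x) (w := w) h d.he d.hv d.hv' d.hvv
  have t := fun {x w} => yy0 (x := x) (w := w) h d.he d.hv d.hv' d.hvv
  constructor
  · rw [ff, add_mul, add_mul, z1, d.one' h]
    calc W e * W v * W v' * W e * W y + (1 - W e - W e₄ - W x₁ * W e * W y₁ -
          W x₂ * W e * W y₂) * W y + 0
        = W e * W v * (W v' * W e * W y) + W y - W e * W y - W e₄ * W y -
          W x₁ * W e * (W y₁ * W y) - W x₂ * W e * (W y₂ * W y) := by noncomm_ring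
      _ = W y - W e * W y := by rw [s d.hv' hy, z1, t d.hy1 hy, t d.hy2 hy]; simp
      _ = W y * W e := by nth_rewrite 1 [y_add h hy]; abel
  · rw [ff, mul_add, mul_add, mul_add, z2, d.evv h]
    calc W y * (W e - W e * W v' * W v * W e) +
          (W y * (W y₁ * W e * W x₁) + W y * (W y₂ * W e * W x₂)) + 0
        = W y * W e - (W y * W e * W v') * W v * W e +
          ((W y * W y₁) * W e * W x₁ + (W y * W y₂) * W e * W x₂) := by noncomm_ring
      _ = _ := by rw [s hy d.hv', t hy d.hy1, t hy d.hy2]; simp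

theorem fe (h : JHom W) :
    ff W e e₄ v v' x₁ x₂ y₁ y₂ * W e = W e * W v * W v' * W e ∧
      W e * ff W e e₄ v v' x₁ x₂ y₁ y₂ = W e * W v * W v' * W e := by
  obtain ⟨z1, z2⟩ := d.four0 h (Or.inl d.he)
  have hE := EE h d.he
  constructor
  · rw [ff, add_mul, add_mul, add_mul, z1]
    calc W e * W v * W v' * W e * W e + (W y₁ * W e * W x₁ * W e + W y₂ * W e * W x₂ * W e) + 0
        = W e * W v * W v' * (W e * W e) + (W y₁ * (W e * W x₁ * W e) +
          W y₂ * (W e * W x₂ * W e)) := by noncomm_ring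
      _ = _ := by rw [hE, x_mid h d.hx1, x_mid h d.hx2]; simp
  · rw [ff, mul_add, mul_add, mul_add, z2]
    calc W e * (W e * W v * W v' * W e) + (W e * (W y₁ * W e * W x₁) + W e * (W y₂ * W e * W x₂)) +
          0 = (W e * W e) * W v * W v' * W e + ((W e * W y₁ * W e) * W x₁ +
          (W e * W y₂ * W e) * W x₂) := by noncomm_ring
      _ = _ := by rw [hE, y_mid h d.hy1, y_mid h d.hy2]; simp

theorem f4 (h : JHom W) :
    ff W e e₄ v v' x₁ x₂ y₁ y₂ * W e₄ = W e₄ ∧ W e₄ * ff W e e₄ v v' x₁ x₂ y₁ y₂ = W e₄ := by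
  obtain ⟨z1, z2⟩ := d.four0 h (Or.inl d.he)
  obtain ⟨-, a2⟩ := d.four0 h (Or.inl d.hx1.1)
  obtain ⟨-, b2⟩ := d.four0 h (Or.inl d.hx2.1)
  obtain ⟨a1, -⟩ := d.four0 h (Or.inr d.hy1.1)
  obtain ⟨b1, -⟩ := d.four0 h (Or.inr d.hy2.1)
  have h4 : W e₄ * W e₄ = W e₄ := by rw [← h.sq, d.h4]
  constructor
  · rw [ff, add_mul, add_mul, add_mul, h4]
    calc W e * W v * W v' * W e * W e₄ + (W y₁ * W e * W x₁ * W e₄ + W y₂ * W e * W x₂ * W e₄) +
          W e₄ = W e * W v * W v' * (W e * W e₄) + (W y₁ * W e * (W x₁ * W e₄) +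
          W y₂ * W e * (W x₂ * W e₄)) + W e₄ := by noncomm_ring
      _ = _ := by rw [z2, a2, b2]; simp
  · rw [ff, mul_add, mul_add, mul_add, h4]
    calc W e₄ * (W e * W v * W v' * W e) + (W e₄ * (W y₁ * W e * W x₁) +
          W e₄ * (W y₂ * W e * W x₂)) + W e₄ = (W e₄ * W e) * W v * W v' * W e +
          ((W e₄ * W y₁) * W e * W x₁ + (W e₄ * W y₂) * W e * W x₂) + W e₄ := by noncomm_ring
      _ = _ := by rw [z1, a1, b1]; simp

theorem fa (h : JHom W) {a : R} (ha : BD e a) :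
    ff W e e₄ v v' x₁ x₂ y₁ y₂ * W a = W a * ff W e e₄ v v' x₁ x₂ y₁ y₂ := by
  set f := ff W e e₄ v v' x₁ x₂ y₁ y₂ with hf
  obtain ⟨a1, a2⟩ := d_left h d.he ha
  obtain ⟨q1, -⟩ := W_ax h d.he ha d.hv
  have hav : BX e (a * v) := (bd_x ha d.hv).1
  have e1 : W a = W e * W (a * v) * W v' * W e + W e * W v' * W (a * v) * W e := by
    rw [← (W_xy h d.he hav d.hv').1, mul_assoc, d.hvv, ha.2]
  have e2 : f * W e = W e * W v * W v' * W e := (d.fe h).1
  have e3 : W e * f = W e * W v * W v' * W e := (d.fe h).2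
  have e4 : f * (W e * W (a * v)) = W e * W (a * v) := by
    have := (d.fx h hav).1
    rw [← hf] at this
    have m := x_mid h hav
    have p : W e * W (a * v) = W (a * v) - W (a * v) * W e := by
      nth_rewrite 2 [x_add h hav]; abel
    calc f * (W e * W (a * v)) = f * W (a * v) - f * W (a * v) * W e := by rw [p]; noncomm_ring
      _ = W e * W (a * v) - W e * W (a * v) * W e := by rw [this]
      _ = _ := by rw [m, sub_zero]
  calc f * W a = f * (W e * W (a * v) * W v' * W e + W e * W v' * W (a * v) * W e) := by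
        rw [← e1]
    _ = (f * (W e * W (a * v))) * W v' * W e + (f * W e) * W v' * W (a * v) * W e := by
        noncomm_ring
    _ = W e * W (a * v) * W v' * W e + W e * W v * (W v' * W e * W v') * W (a * v) * W e := by
        rw [e4, e2]; noncomm_ring
    _ = W e * W (a * v) * W v' * W e := by
        rw [S1' h d.he d.hv d.hv' d.hvv d.hv' d.hv']; simp
    _ = W a * W v * W v' * W e := by rw [q1]
    _ = W a * (W e * W v * W v' * W e) := by nth_rewrite 1 [← a2]; noncomm_ring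
    _ = W a * (W e * f) := by rw [e3]
    _ = W a * f := by rw [← mul_assoc, a2]

theorem decO {b : R} (hb : BO e b) : b = e₄ * b + b * y₁ * x₁ + b * y₂ * x₂ := by
  calc b = b * (1 - e - e₄) + b * e + b * e₄ := by noncomm_ring
    _ = b * (y₁ * x₁ + y₂ * x₂) + 0 + e₄ * b := by rw [d.sum, hb.2, d.c4]
    _ = _ := by noncomm_ring

theorem fb (h : JHom W) {b : R} (hb : BO e b) :
    ff W e e₄ v v' x₁ x₂ y₁ y₂ * W b = W b * ff W e e₄ v v' x₁ x₂ y₁ y₂ := by
  set f := ff W e e₄ v v' x₁ x₂ y₁ y₂ with hf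
  have k1 := (bo_y hb d.hy1).1
  have k2 := (bo_y hb d.hy2).1
  have hE := EE h d.he
  have e1 : W b = W (e₄ * b) + (W (b * y₁) * W e * W x₁ + W x₁ * W e * W (b * y₁)) +
      (W (b * y₂) * W e * W x₂ + W x₂ * W e * W (b * y₂)) := by
    rw [← (W_xy h d.he d.hx1 k1).2, ← (W_xy h d.he d.hx2 k2).2, ← map_add, ← map_add,
      ← d.decO hb]
  have l4 : f * W (e₄ * b) = W (e₄ * b) := by
    rw [(d.four h b).1, ← mul_assoc, (d.f4 h).1]
  have r4 : W (e₄ * b) * f = W (e₄ * b) := by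
    rw [(d.four h b).2, mul_assoc, (d.f4 h).2]
  have c1 := (d.fy h k1).1
  have c2 := (d.fy h k2).1
  have c3 := (d.fx h d.hx1).1
  have c4 := (d.fx h d.hx2).1
  have c1' := (d.fy h k1).2
  have c2' := (d.fy h k2).2
  have c3' := (d.fx h d.hx1).2
  have c4' := (d.fx h d.hx2).2
  rw [← hf] at c1 c2 c3 c4 c1' c2' c3' c4'
  have m1 := x_mid h d.hx1
  have m2 := x_mid h d.hx2
  have n1 := y_mid h k1
  have n2 := y_mid h k2
  have L : f * W b = W (e₄ * b) + W (b * y₁) * W e * W x₁ + W (b * y₂) * W e * W x₂ := by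
    calc f * W b = f * W (e₄ * b) + (f * W (b * y₁)) * W e * W x₁ +
          (f * W x₁) * W e * W (b * y₁) + (f * W (b * y₂)) * W e * W x₂ +
          (f * W x₂) * W e * W (b * y₂) := by nth_rewrite 1 [e1]; noncomm_ring
      _ = W (e₄ * b) + W (b * y₁) * (W e * W e) * W x₁ + (W e * W x₁ * W e) * W (b * y₁) +
          W (b * y₂) * (W e * W e) * W x₂ + (W e * W x₂ * W e) * W (b * y₂) := by
          rw [l4, c1, c2, c3, c4]; noncomm_ring
      _ = _ := by rw [hE, m1, m2]; simp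
  have Rr : W b * f = W (e₄ * b) + W (b * y₁) * W e * W x₁ + W (b * y₂) * W e * W x₂ := by
    calc W b * f = W (e₄ * b) * f + W (b * y₁) * W e * (W x₁ * f) +
          W x₁ * W e * (W (b * y₁) * f) + W (b * y₂) * W e * (W x₂ * f) +
          W x₂ * W e * (W (b * y₂) * f) := by nth_rewrite 1 [e1]; noncomm_ring
      _ = W (e₄ * b) + W (b * y₁) * (W e * W e) * W x₁ + W x₁ * (W e * W (b * y₁) * W e) +
          W (b * y₂) * (W e * W e) * W x₂ + W x₂ * (W e * W (b * y₂) * W e) := by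
          rw [r4, c1', c2', c3', c4']; noncomm_ring
      _ = _ := by rw [hE, n1, n2]; simp
  rw [L, Rr]

theorem comm (h : JHom W) (r : R) :
    ff W e e₄ v v' x₁ x₂ y₁ y₂ * W r = W r * ff W e e₄ v v' x₁ x₂ y₁ y₂ := by
  obtain ⟨a, x, y, b, ha, hx, hy, hb, rfl⟩ := blocks d.he r
  rw [map_add, map_add, map_add]
  simp only [mul_add, add_mul]
  rw [d.fa h ha, d.fb h hb, (d.fx h hx).1, (d.fx h hx).2, (d.fy h hy).1, (d.fy h hy).2]

theorem idem (h : JHom W) : ff W e e₄ v v' x₁ x₂ y₁ y₂ * ff W e e₄ v v' x₁ x₂ y₁ y₂ =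
    ff W e e₄ v v' x₁ x₂ y₁ y₂ := by
  set f := ff W e e₄ v v' x₁ x₂ y₁ y₂ with hf
  have hE := EE h d.he
  have e2 : f * W e = W e * W v * W v' * W e := (d.fe h).1
  have e5 : f * (W e * W v * W v' * W e) = W e * W v * W v' * W e := by
    have c := d.comm h e
    rw [← hf] at c
    calc f * (W e * W v * W v' * W e) = (f * W e) * W v * W v' * W e := by noncomm_ring
      _ = W e * (f * W v) * W v' * W e := by rw [c]; noncomm_ring
      _ = (W e * W e) * W v * W v' * W e := by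
          have := (d.fx h d.hv).1
          rw [← hf] at this
          rw [this]; noncomm_ring
      _ = _ := by rw [hE]
  have c1 := (d.fy h d.hy1).1
  have c2 := (d.fy h d.hy2).1
  have c3 := (d.f4 h).1
  rw [← hf] at c1 c2 c3
  nth_rewrite 2 [hf]
  rw [ff, mul_add, mul_add, mul_add, e5, c3]
  calc W e * W v * W v' * W e + (f * (W y₁ * W e * W x₁) + f * (W y₂ * W e * W x₂)) + W e₄
      = W e * W v * W v' * W e + ((f * W y₁) * W e * W x₁ + (f * W y₂) * W e * W x₂) + W e₄ := by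
        noncomm_ring
    _ = W e * W v * W v' * W e + (W y₁ * (W e * W e) * W x₁ + W y₂ * (W e * W e) * W x₂) +
        W e₄ := by rw [c1, c2]; noncomm_ring
    _ = f := by rw [hE, hf, ff]

end SD

end

end TH140.KC
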