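import Mathlib
import Pool.Agent.TH140.KC.JAlg3

/-!
The splitting of a Jordan homomorphism: multiplicativity.
-/

set_option autoImplicit false

namespace TH140.KC

universe u v

section

variable {R : Type u} {B : Type v} [Ring R] [Ring B] {W : R →+ B}

theorem ll_add {f : B} {r r' : R} (h1 : ∀ s, f * W (r * s) = f * (W r * W s))
    (h2 : ∀ s, f * W (r' * s) = f * (W r' * W s)) (s : R) :
    f * W ((r + r') * s) = f * (W (r + r') * W s) := by
  rw [add_mul, map_add, map_add, mul_add, h1, h2]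
  noncomm_ring

theorem ll_mul {f : B} (hc : ∀ r, f * W r = W r * f) {r r' : R}
    (h1 : ∀ s, f * W (r * s) = f * (W r * W s))
    (h2 : ∀ s, f * W (r' * s) = f * (W r' * W s)) (s : R) :
    f * W ((r * r') * s) = f * (W (r * r') * W s) := by
  calc f * W ((r * r') * s) = f * (W r * W (r' * s)) := by rw [mul_assoc, h1]
    _ = W r * (f * W (r' * s)) := by rw [← mul_assoc, hc, mul_assoc]
    _ = (W r * f) * W r' * W s := by rw [h2]; noncomm_ring
    _ = (f * (W r * W r')) * W s := by rw [← hc]; noncomm_ring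
    _ = _ := by rw [← h1, mul_assoc]

theorem lr_add {f : B} {r r' : R} (h1 : ∀ s, f * W (r * s) = f * (W s * W r))
    (h2 : ∀ s, f * W (r' * s) = f * (W s * W r')) (s : R) :
    f * W ((r + r') * s) = f * (W s * W (r + r')) := by
  rw [add_mul, map_add, map_add, mul_add, h1, h2]
  noncomm_ring

theorem lr_mul {f : B} (hc : ∀ r, f * W r = W r * f) {r r' : R}
    (h1 : ∀ s, f * W (r * s) = f * (W s * W r))
    (h2 : ∀ s, f * W (r' * s) = f * (W s * W r')) (s : R) :
    f * W ((r * r') * s) = f * (W s * W (r * r')) := by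
  calc f * W ((r * r') * s) = f * (W (r' * s) * W r) := by rw [mul_assoc, h1]
    _ = (f * W (r' * s)) * W r := by noncomm_ring
    _ = (f * W s) * (W r' * W r) := by rw [h2]; noncomm_ring
    _ = W s * (f * (W r' * W r)) := by rw [hc]; noncomm_ring
    _ = W s * f * W (r * r') := by rw [← h1]; noncomm_ring
    _ = _ := by rw [← hc, mul_assoc]

variable {e e₄ v v' x₁ x₂ y₁ y₂ : R}

namespace SD

variable (d : SD W e e₄ v v' x₁ x₂ y₁ y₂)

include d

theorem fEx (h : JHom W) {x : R} (hx : BX e x) :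
    ff W e e₄ v v' x₁ x₂ y₁ y₂ * (W e * W x) = W e * W x := by
  have hE := EE h d.he
  rw [← mul_assoc, d.comm h, mul_assoc, (d.fx h hx).1, ← mul_assoc, hE]

theorem fEy (h : JHom W) {y : R} (hy : BY e y) :
    ff W e e₄ v v' x₁ x₂ y₁ y₂ * (W e * W y) = 0 := by
  rw [← mul_assoc, (d.fe h).1]
  calc W e * W v * W v' * W e * W y = W e * W v * (W v' * W e * W y) := by noncomm_ring
    _ = 0 := by rw [S1' h d.he d.hv d.hv' d.hvv d.hv' hy, mul_zero]

theorem fxy (h : JHom W) {x y : R} (hx : BX e x) (hy : BY e y) :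
    ff W e e₄ v v' x₁ x₂ y₁ y₂ * W (x * y) = W e * W x * W y * W e := by
  rw [(W_xy h d.he hx hy).1, mul_add]
  calc _ = (ff W e e₄ v v' x₁ x₂ y₁ y₂ * (W e * W x)) * W y * W e +
        (ff W e e₄ v v' x₁ x₂ y₁ y₂ * (W e * W y)) * W x * W e := by noncomm_ring
    _ = _ := by rw [d.fEx h hx, d.fEy h hy]; simp

theorem fyx (h : JHom W) {x y : R} (hx : BX e x) (hy : BY e y) :
    ff W e e₄ v v' x₁ x₂ y₁ y₂ * W (y * x) = W y * W e * W x := by
  have hE := EE h d.he
  rw [(W_xy h d.he hx hy).2, mul_add]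
  calc _ = (ff W e e₄ v v' x₁ x₂ y₁ y₂ * W y) * W e * W x +
        (ff W e e₄ v v' x₁ x₂ y₁ y₂ * W x) * W e * W y := by noncomm_ring
    _ = W y * (W e * W e) * W x + (W e * W x * W e) * W y := by
        rw [(d.fy h hy).1, (d.fx h hx).1]; noncomm_ring
    _ = _ := by rw [hE, x_mid h hx]; simp

theorem llx (h : JHom W) {x : R} (hx : BX e x) (s : R) :
    ff W e e₄ v v' x₁ x₂ y₁ y₂ * W (x * s) =
      ff W e e₄ v v' x₁ x₂ y₁ y₂ * (W x * W s) := by
  obtain ⟨a, x', y, b, ha, hx', hy, hb, rfl⟩ := blocks d.he s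
  have hE := EE h d.he
  have e1 : x * (a + x' + y + b) = x * y + x * b := by
    rw [mul_add, mul_add, mul_add, (bd_x ha hx).2, bx_x hx hx', zero_add, zero_add]
  have fx := (d.fx h hx).1
  have pa : W e * W x * W a = 0 := by
    rw [← (d_left h d.he ha).1, ← mul_assoc, x_mid h hx, zero_mul]
  have py : W e * W x * W y = W e * W x * W y * W e := by
    have o := off_mul (x_add h hx) (y_add h hy) (x_mid h hx) (y_mid h hy) hE
    calc W e * W x * W y = W e * (W x * W y) := by noncomm_ring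
      _ = (W e * W e) * W x * W y * W e + (W e * W x * W e) * W y := by rw [o]; noncomm_ring
      _ = _ := by rw [hE, x_mid h hx]; simp
  rw [e1, map_add, mul_add, d.fxy h hx hy, (d.fx h (bx_o hx hb).1).1, (W_xb h d.he hx hb).1,
    ← mul_assoc, fx, map_add, map_add, map_add, mul_add, mul_add, mul_add, pa, mul_assoc (W e) (W x)
    (W x'), xx0 h d.he d.hv d.hv' d.hvv hx hx', ← py]
  simp

theorem lly (h : JHom W) {y : R} (hy : BY e y) (s : R) :
    ff W e e₄ v v' x₁ x₂ y₁ y₂ * W (y * s) =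
      ff W e e₄ v v' x₁ x₂ y₁ y₂ * (W y * W s) := by
  obtain ⟨a, x, y', b, ha, hx, hy', hb, rfl⟩ := blocks d.he s
  have e1 : y * (a + x + y' + b) = y * a + y * x := by
    rw [mul_add, mul_add, mul_add, (bo_y hb hy).2, by_y hy hy', add_zero, add_zero]
  have fy := (d.fy h hy).1
  rw [e1, map_add, mul_add, d.fyx h hx hy, (d.fy h (by_d hy ha).1).1, (W_ya h d.he hy ha).1,
    ← mul_assoc, fy, map_add, map_add, map_add, mul_add, mul_add, mul_add,
    S1' h d.he d.hv d.hv' d.hvv hy hy', mul_assoc (W y) (W e) (W a), (d_left h d.he ha).1,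
    mul_assoc (W y) (W e) (W b), (o_left h d.he hb).1]
  simp

theorem ll (h : JHom W) (r s : R) :
    ff W e e₄ v v' x₁ x₂ y₁ y₂ * W (r * s) =
      ff W e e₄ v v' x₁ x₂ y₁ y₂ * (W r * W s) := by
  have hc := d.comm h
  obtain ⟨a, x, y, b, ha, hx, hy, hb, rfl⟩ := blocks d.he r
  refine ll_add (ll_add (ll_add ?_ (d.llx h hx)) (d.lly h hy)) ?_ s
  · have : a = (a * v) * v' := by rw [mul_assoc, d.hvv, ha.2]
    rw [this]
    exact ll_mul hc (d.llx h (bd_x ha d.hv).1) (d.lly h d.hv')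
  · rw [d.decO hb]
    refine ll_add (ll_add ?_ ?_) ?_
    · intro s
      rw [mul_assoc, d.hom4]
    · exact ll_mul hc (d.lly h (bo_y hb d.hy1).1) (d.llx h d.hx1)
    · exact ll_mul hc (d.lly h (bo_y hb d.hy2).1) (d.llx h d.hx2)

theorem gcomm (h : JHom W) (r : R) : (1 - ff W e e₄ v v' x₁ x₂ y₁ y₂) * W r =
    W r * (1 - ff W e e₄ v v' x₁ x₂ y₁ y₂) := by
  rw [sub_mul, mul_sub, one_mul, mul_one, d.comm h]

theorem gx (h : JHom W) {x : R} (hx : BX e x) :
    (1 - ff W e e₄ v v' x₁ x₂ y₁ y₂) * W x = W x * W e := by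
  rw [sub_mul, one_mul, (d.fx h hx).1]
  nth_rewrite 1 [x_add h hx]
  abel

theorem gy (h : JHom W) {y : R} (hy : BY e y) :
    (1 - ff W e e₄ v v' x₁ x₂ y₁ y₂) * W y = W e * W y := by
  rw [sub_mul, one_mul, (d.fy h hy).1]
  nth_rewrite 1 [y_add h hy]
  abel

theorem gxy (h : JHom W) {x y : R} (hx : BX e x) (hy : BY e y) :
    (1 - ff W e e₄ v v' x₁ x₂ y₁ y₂) * W (x * y) = W e * W y * W x * W e := by
  rw [sub_mul, one_mul, d.fxy h hx hy, (W_xy h d.he hx hy).1]
  abel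

theorem gyx (h : JHom W) {x y : R} (hx : BX e x) (hy : BY e y) :
    (1 - ff W e e₄ v v' x₁ x₂ y₁ y₂) * W (y * x) = W x * W e * W y := by
  rw [sub_mul, one_mul, d.fyx h hx hy, (W_xy h d.he hx hy).2]
  abel

theorem lrx (h : JHom W) {x : R} (hx : BX e x) (s : R) :
    (1 - ff W e e₄ v v' x₁ x₂ y₁ y₂) * W (x * s) =
      (1 - ff W e e₄ v v' x₁ x₂ y₁ y₂) * (W s * W x) := by
  obtain ⟨a, x', y, b, ha, hx', hy, hb, rfl⟩ := blocks d.he s
  have hE := EE h d.he
  have e1 : x * (a + x' + y + b) = x * y + x * b := by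
    rw [mul_add, mul_add, mul_add, (bd_x ha hx).2, bx_x hx hx', zero_add, zero_add]
  have gx := d.gx h hx
  have gc := d.gcomm h
  have pa : W a * W x * W e = 0 := by
    rw [← (d_left h d.he ha).2, mul_assoc, mul_assoc, ← mul_assoc (W e), x_mid h hx, mul_zero]
  have py : W e * W y * W x = W e * W y * W x * W e := by
    have o := off_mul (y_add h hy) (x_add h hx) (y_mid h hy) (x_mid h hx) hE
    calc W e * W y * W x = W e * (W y * W x) := by noncomm_ring
      _ = (W e * W e) * W y * W x * W e + (W e * W y * W e) * W x := by rw [o]; noncomm_ring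
      _ = _ := by rw [hE, y_mid h hy]; simp
  have q1 : (1 - ff W e e₄ v v' x₁ x₂ y₁ y₂) * (W a * W x) = 0 := by
    rw [← mul_assoc, gc, mul_assoc, gx, ← mul_assoc, pa]
  have q2 : (1 - ff W e e₄ v v' x₁ x₂ y₁ y₂) * (W x' * W x) = 0 := by
    rw [xx0 h d.he d.hv d.hv' d.hvv hx' hx, mul_zero]
  have q3 : (1 - ff W e e₄ v v' x₁ x₂ y₁ y₂) * (W y * W x) = W e * W y * W x * W e := by
    rw [← mul_assoc, d.gy h hy]
    exact py
  have q4 : (1 - ff W e e₄ v v' x₁ x₂ y₁ y₂) * (W b * W x) = W b * W x * W e := by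
    rw [← mul_assoc, gc, mul_assoc, gx, ← mul_assoc]
  rw [e1, map_add, mul_add, d.gxy h hx hy, d.gx h (bx_o hx hb).1, (W_xb h d.he hx hb).2,
    map_add, map_add, map_add, add_mul, add_mul, add_mul, mul_add, mul_add, mul_add, q1, q2, q3, q4]
  simp

theorem lry (h : JHom W) {y : R} (hy : BY e y) (s : R) :
    (1 - ff W e e₄ v v' x₁ x₂ y₁ y₂) * W (y * s) =
      (1 - ff W e e₄ v v' x₁ x₂ y₁ y₂) * (W s * W y) := by
  obtain ⟨a, x, y', b, ha, hx, hy', hb, rfl⟩ := blocks d.he s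
  have e1 : y * (a + x + y' + b) = y * a + y * x := by
    rw [mul_add, mul_add, mul_add, (bo_y hb hy).2, by_y hy hy', add_zero, add_zero]
  have gy := d.gy h hy
  have gc := d.gcomm h
  have q1 : (1 - ff W e e₄ v v' x₁ x₂ y₁ y₂) * (W a * W y) = W a * W y := by
    rw [← mul_assoc, gc, mul_assoc, gy, ← mul_assoc, (d_left h d.he ha).2]
  have q2 : (1 - ff W e e₄ v v' x₁ x₂ y₁ y₂) * (W x * W y) = W x * W e * W y := by
    rw [← mul_assoc, gc, mul_assoc, gy, ← mul_assoc]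
  have q3 : (1 - ff W e e₄ v v' x₁ x₂ y₁ y₂) * (W y' * W y) = 0 := by
    rw [yy0 h d.he d.hv d.hv' d.hvv hy' hy, mul_zero]
  have q4 : (1 - ff W e e₄ v v' x₁ x₂ y₁ y₂) * (W b * W y) = 0 := by
    rw [← mul_assoc, gc, mul_assoc, gy, ← mul_assoc, (o_left h d.he hb).2, zero_mul]
  rw [e1, map_add, mul_add, d.gyx h hx hy, d.gy h (by_d hy ha).1, (W_ya h d.he hy ha).2,
    map_add, map_add, map_add, add_mul, add_mul, add_mul, mul_add, mul_add, mul_add, q1, q2, q3, q4]
  simp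

theorem lr (h : JHom W) (r s : R) :
    (1 - ff W e e₄ v v' x₁ x₂ y₁ y₂) * W (r * s) =
      (1 - ff W e e₄ v v' x₁ x₂ y₁ y₂) * (W s * W r) := by
  have hc := d.gcomm h
  obtain ⟨a, x, y, b, ha, hx, hy, hb, rfl⟩ := blocks d.he r
  refine lr_add (lr_add (lr_add ?_ (d.lrx h hx)) (d.lry h hy)) ?_ s
  · have : a = (a * v) * v' := by rw [mul_assoc, d.hvv, ha.2]
    rw [this]
    exact lr_mul hc (d.lrx h (bd_x ha d.hv).1) (d.lry h d.hv')
  · rw [d.decO hb]
    refine lr_add (lr_add ?_ ?_) ?_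
    · intro s
      have g4 : (1 - ff W e e₄ v v' x₁ x₂ y₁ y₂) * W e₄ = 0 := by
        rw [sub_mul, one_mul, (d.f4 h).1, sub_self]
      rw [mul_assoc, (d.four h _).1, ← mul_assoc, g4, zero_mul, ← mul_assoc, hc, mul_assoc,
        (d.four h b).1, ← mul_assoc _ (W e₄), g4, zero_mul, mul_zero]
    · exact lr_mul hc (d.lry h (bo_y hb d.hy1).1) (d.lrx h d.hx1)
    · exact lr_mul hc (d.lry h (bo_y hb d.hy2).1) (d.lrx h d.hx2)

end SD

end

end TH140.KC
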