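import Mathlib
import Pool.Agent.H711R2.KG.Defs
import Pool.Agent.TH140.KC.JAlg4

/-!
The data for the splitting in a von Neumann algebra.
-/

set_option autoImplicit false

open scoped ComplexOrder

noncomputable section

namespace TH140.KC

open H711R2.KG

universe u

variable {M : Type u} [CStarAlgebra M]

theorem pi_right {v q : M} (h : star v * v = q) (hq : IsPrj q) : v * q = v := by
  have h0 : star (v - v * q) * (v - v * q) = 0 := by
    have e1 : star (v - v * q) * (v - v * q) =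
        star v * v - (star v * v) * q - star q * (star v * v) + star q * (star v * v) * q := by
      rw [star_sub, star_mul]
      noncomm_ring
    rw [e1, h, hq.1, hq.2]
    simp [hq.2]
  have h1 : v - v * q = 0 := CStarRing.star_mul_self_eq_zero_iff _ |>.1 h0
  exact (sub_eq_zero.1 h1).symm

theorem prj_cent_mul {z p : M} (hz : IsPrj z) (hc : ∀ a, z * a = a * z) (hp : IsPrj p) :
    IsPrj (z * p) := by
  constructor
  · rw [star_mul, hz.1, hp.1, hc]
  · calc z * p * (z * p) = z * (p * z) * p := by noncomm_ring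
      _ = (z * z) * (p * p) := by rw [← hc p]; noncomm_ring
      _ = _ := by rw [hz.2, hp.2]

theorem prj_compl {p : M} (hp : IsPrj p) : IsPrj (1 - p) := by
  constructor
  · rw [star_sub, star_one, hp.1]
  · calc (1 - p) * (1 - p) = 1 - p - p + p * p := by noncomm_ring
      _ = _ := by rw [hp.2]; abel

theorem prj_sub {p q : M} (hp : IsPrj p) (hq : IsPrj q) (h : p * q = q) : IsPrj (p - q) := by
  have h' : q * p = q := by
    have := congrArg star h
    rwa [star_mul, hp.1, hq.1] at this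
  constructor
  · rw [star_sub, hp.1, hq.1]
  · calc (p - q) * (p - q) = p * p - p * q - q * p + q * q := by noncomm_ring
      _ = _ := by rw [hp.2, hq.2, h, h']; abel

theorem prj_norm {p : M} (hp : IsPrj p) : ‖p‖ ≤ 1 := by
  have h1 : ‖p‖ * ‖p‖ = ‖p‖ := by
    rw [← CStarRing.norm_star_mul_self, hp.1, hp.2]
  by_contra hcon
  have : 1 < ‖p‖ := not_le.1 hcon
  nlinarith

theorem pi_norm {v q : M} (h : star v * v = q) (hq : IsPrj q) : ‖v‖ ≤ 1 := by
  have h1 : ‖v‖ * ‖v‖ ≤ 1 := by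
    rw [← CStarRing.norm_star_mul_self, h]
    exact prj_norm hq
  nlinarith [norm_nonneg v]

/-- The data. -/
structure VD (e e₄ v y : M) : Prop where
  he : IsPrj e
  hv : BX e v
  hvv : v * star v = e
  h4 : IsPrj e₄
  c4 : ∀ x, e₄ * x = x * e₄
  h4e : e₄ * e = 0
  hy : BY e y
  sum : star v * v + y * star y = 1 - e - e₄
  nv : ‖v‖ ≤ 1
  ny : ‖y‖ ≤ 1
  ab : ∀ p, IsPrj p → IsPrj (e₄ * p) ∧ ∀ x, (e₄ * p) * x = x * (e₄ * p)

variable [PartialOrder M] [StarOrderedRing M]

theorem exists_data (hM : IsVN M) : ∃ e e₄ v y : M, VD e e₄ v y := by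
  have h1 : IsPrj (1 : M) := ⟨star_one M, mul_one 1⟩
  obtain ⟨v₀, -, -, hv2, hq, hab⟩ := hM.half 1 h1
  set q := star v₀ * v₀ with hqdef
  set p₀ := v₀ * star v₀ with hp0def
  have hvq : v₀ * q = v₀ := pi_right rfl hq
  have hv2s : star v₀ * star v₀ = 0 := by rw [← star_mul, hv2, star_zero]
  have hp0 : IsPrj p₀ := by
    constructor
    · rw [hp0def, star_mul, star_star]
    · calc p₀ * p₀ = (v₀ * (star v₀ * v₀)) * star v₀ := by rw [hp0def]; noncomm_ring
        _ = _ := by rw [← hqdef, hvq]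
  have hpv : p₀ * v₀ = v₀ := by
    rw [hp0def, mul_assoc, ← hqdef, hvq]
  have hpq : p₀ * q = 0 := by
    calc p₀ * q = v₀ * (star v₀ * star v₀) * v₀ := by rw [hp0def, hqdef]; noncomm_ring
      _ = 0 := by rw [hv2s]; simp
  have hqp : q * p₀ = 0 := by
    calc q * p₀ = star v₀ * (v₀ * v₀) * star v₀ := by rw [hp0def, hqdef]; noncomm_ring
      _ = 0 := by rw [hv2]; simp
  set r₀ := 1 - q - p₀ with hr0def
  have hr0 : IsPrj r₀ := by
    constructor
    · rw [hr0def, star_sub, star_sub, star_one, hq.1, hp0.1]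
    · calc r₀ * r₀ = 1 - q - p₀ - q + q * q + q * p₀ - p₀ + p₀ * q + p₀ * p₀ := by
            rw [hr0def]; noncomm_ring
        _ = _ := by rw [hq.2, hp0.2, hqp, hpq, hr0def]; abel
  have hpr : p₀ * r₀ = 0 := by
    rw [hr0def, mul_sub, mul_sub, mul_one, hpq, hp0.2]; abel
  obtain ⟨z, hz, hzc, ⟨w, hw1, hw2⟩, ⟨s, hs1, hs2⟩⟩ := hM.comp r₀ p₀ hr0 hp0
  have hz1 : IsPrj (1 - z) := prj_compl hz
  have hz1c : ∀ a, (1 - z) * a = a * (1 - z) := fun a => by
    rw [sub_mul, mul_sub, one_mul, mul_one, hzc]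
  have hzr : IsPrj (z * r₀) := prj_cent_mul hz hzc hr0
  have hzp : IsPrj ((1 - z) * p₀) := prj_cent_mul hz1 hz1c hp0
  have hw3 : w * (z * r₀) = w := pi_right hw1 hzr
  have hs3 : s * ((1 - z) * p₀) = s := pi_right hs1 hzp
  have hs4 : (1 - z) * s = s := by
    calc (1 - z) * s = (1 - z) * ((1 - z) * r₀ * s) := by rw [hs2]
      _ = ((1 - z) * (1 - z)) * r₀ * s := by noncomm_ring
      _ = s := by rw [hz1.2, hs2]
  have hs5 : r₀ * s = s := by
    calc r₀ * s = r₀ * ((1 - z) * r₀ * s) := by rw [hs2]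
      _ = (r₀ * (1 - z)) * r₀ * s := by noncomm_ring
      _ = (1 - z) * (r₀ * r₀) * s := by rw [← hz1c]; noncomm_ring
      _ = s := by rw [hr0.2, hs2]
  have hs6 : s * p₀ = s := by
    calc s * p₀ = s * ((1 - z) * p₀) * p₀ := by rw [hs3]
      _ = s * ((1 - z) * (p₀ * p₀)) := by noncomm_ring
      _ = s := by rw [hp0.2, hs3]
  set q₀ := s * star s with hq0def
  have hsss : s * (star s * s) = s := by rw [hs1, hs3]
  have hq0 : IsPrj q₀ := by
    constructor
    · rw [hq0def, star_mul, star_star]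
    · calc q₀ * q₀ = (s * (star s * s)) * star s := by rw [hq0def]; noncomm_ring
        _ = _ := by rw [hsss]
  have hrq : r₀ * q₀ = q₀ := by
    rw [hq0def, ← mul_assoc, hs5]
  obtain ⟨z', hz', hz'c, hq0z⟩ := hab q₀ hq0 hrq
  set z₂ := (1 - z) * z' with hz2def
  have hz2 : IsPrj z₂ := prj_cent_mul hz1 hz1c hz'
  have hz2c : ∀ a, z₂ * a = a * z₂ := fun a => by
    rw [hz2def, mul_assoc, hz'c, ← mul_assoc, hz1c, mul_assoc]
  have hzz : z * (1 - z) = 0 := by rw [mul_sub, mul_one, hz.2, sub_self]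
  have hzz2 : z * z₂ = 0 := by rw [hz2def, ← mul_assoc, hzz, zero_mul]
  have hz2z : z₂ * z = 0 := by rw [hz2c, hzz2]
  have hz2r : z₂ * r₀ = q₀ := by
    rw [hz2def, mul_assoc, ← hq0z, hq0def, ← mul_assoc, hs4]
  have hz2s : z₂ * s = s := by
    calc z₂ * s = z₂ * (s * (star s * s)) := by rw [hsss]
      _ = z₂ * (s * star s) * s := by noncomm_ring
      _ = z₂ * (z₂ * r₀) * s := by rw [← hq0def, hz2r]
      _ = (z₂ * z₂) * r₀ * s := by noncomm_ring
      _ = (s * star s) * s := by rw [hz2.2, hz2r]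
      _ = s := by rw [mul_assoc, hsss]
  set z₀ := z + z₂ with hz0def
  have hz0 : IsPrj z₀ := by
    constructor
    · rw [hz0def, star_add, hz.1, hz2.1]
    · calc z₀ * z₀ = z * z + z * z₂ + z₂ * z + z₂ * z₂ := by rw [hz0def]; noncomm_ring
        _ = _ := by rw [hz.2, hzz2, hz2z, hz2.2, hz0def]; abel
  have hz0c : ∀ a, z₀ * a = a * z₀ := fun a => by
    rw [hz0def, add_mul, mul_add, hzc, hz2c]
  have hzz0 : z * z₀ = z := by rw [hz0def, mul_add, hz.2, hzz2, add_zero]
  have hz0s : z₀ * s = s := by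
    calc z₀ * s = z₀ * (z₂ * s) := by rw [hz2s]
      _ = (z * z₂ + z₂ * z₂) * s := by rw [hz0def]; noncomm_ring
      _ = s := by rw [hzz2, hz2.2, zero_add, hz2s]
  -- the elements
  have hwst : star w * (z * p₀) = star w := by
    have := congrArg star hw2
    rwa [star_mul, star_mul, hz.1, hp0.1, ← hzc] at this
  have hwst2 : p₀ * star w = 0 := by
    have := congrArg star hw3
    rw [star_mul, star_mul, hz.1, hr0.1] at this
    calc p₀ * star w = p₀ * (r₀ * z * star w) := by rw [this]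
      _ = (p₀ * r₀) * z * star w := by noncomm_ring
      _ = 0 := by rw [hpr]; simp
  have hps : p₀ * s = 0 := by rw [← hs5, ← mul_assoc, hpr, zero_mul]
  have hsw : s * w = 0 := by
    calc s * w = (s * ((1 - z) * p₀)) * (z * p₀ * w) := by rw [hs3, hw2]
      _ = s * ((1 - z) * (p₀ * z)) * p₀ * w := by noncomm_ring
      _ = s * (((1 - z) * z) * p₀) * p₀ * w := by rw [← hzc p₀]; noncomm_ring
      _ = 0 := by
        have : (1 - z) * z = 0 := by rw [sub_mul, one_mul, hz.2, sub_self]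
        rw [this]; simp
  have hws : star w * star s = 0 := by rw [← star_mul, hsw, star_zero]
  set y := star w + s with hydef
  have hystar : star y = w + star s := by rw [hydef, star_add, star_star]
  have hyy : y * star y = z₀ * r₀ := by
    calc y * star y = star w * w + star w * star s + s * w + s * star s := by
          rw [hystar, hydef]; noncomm_ring
      _ = z * r₀ + q₀ := by rw [hw1, hws, hsw, hq0def]; abel
      _ = _ := by rw [← hz2r, hz0def, add_mul]
  have he : IsPrj (z₀ * p₀) := prj_cent_mul hz0 hz0c hp0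
  have hey : BY (z₀ * p₀) y := by
    constructor
    · rw [hydef, add_mul]
      have a1 : star w * (z₀ * p₀) = star w := by
        calc star w * (z₀ * p₀) = (star w * (z * p₀)) * (z₀ * p₀) := by rw [hwst]
          _ = star w * (z * (p₀ * z₀) * p₀) := by noncomm_ring
          _ = star w * ((z * z₀) * (p₀ * p₀)) := by rw [← hz0c p₀]; noncomm_ring
          _ = star w := by rw [hzz0, hp0.2, hwst]
      have a2 : s * (z₀ * p₀) = s := by
        rw [← mul_assoc, ← hz0c, hz0s, hs6]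
      rw [a1, a2]
    · calc z₀ * p₀ * y = z₀ * (p₀ * star w) + z₀ * (p₀ * s) := by rw [hydef]; noncomm_ring
        _ = 0 := by rw [hwst2, hps]; simp
  have hh4 : IsPrj (1 - z₀) := prj_compl hz0
  have hh4c : ∀ a, (1 - z₀) * a = a * (1 - z₀) := fun a => by
    rw [sub_mul, mul_sub, one_mul, mul_one, hz0c]
  have hz40 : (1 - z₀) * z₀ = 0 := by rw [sub_mul, one_mul, hz0.2, sub_self]
  have h4p : (1 - z₀) * p₀ = 0 := by
    have a1 : (1 - z₀) * z = 0 := by rw [hh4c, mul_sub, mul_one, hzz0, sub_self]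
    have a2 : (1 - z₀) * s = 0 := by rw [sub_mul, one_mul, hz0s, sub_self]
    calc (1 - z₀) * p₀ = (1 - z₀) * ((1 - z) * p₀) + ((1 - z₀) * z) * p₀ := by noncomm_ring
      _ = (1 - z₀) * (star s * s) := by rw [a1, hs1]; simp
      _ = star s * ((1 - z₀) * s) := by rw [← mul_assoc, hh4c, mul_assoc]
      _ = 0 := by rw [a2, mul_zero]
  have h4v : (1 - z₀) * v₀ = 0 := by rw [← hpv, ← mul_assoc, h4p, zero_mul]
  have h4q : (1 - z₀) * q = 0 := by
    rw [hqdef, ← mul_assoc, hh4c, mul_assoc, h4v, mul_zero]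
  have h4r : (1 - z₀) * r₀ = 1 - z₀ := by
    rw [hr0def, mul_sub, mul_sub, mul_one, h4p, h4q, sub_zero, sub_zero]
  refine ⟨z₀ * p₀, 1 - z₀, z₀ * v₀, y, he, ⟨?_, ?_⟩, ?_, hh4, hh4c, ?_, hey, ?_, ?_, ?_, ?_⟩
  · calc z₀ * p₀ * (z₀ * v₀) = z₀ * (p₀ * z₀) * v₀ := by noncomm_ring
      _ = (z₀ * z₀) * (p₀ * v₀) := by rw [← hz0c p₀]; noncomm_ring
      _ = _ := by rw [hz0.2, hpv]
  · calc z₀ * v₀ * (z₀ * p₀) = z₀ * (v₀ * z₀) * p₀ := by noncomm_ring
      _ = (z₀ * z₀) * (v₀ * v₀) * star v₀ := by rw [← hz0c v₀, hp0def]; noncomm_ring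
      _ = 0 := by rw [hv2]; simp
  · rw [star_mul, hz0.1]
    calc z₀ * v₀ * (star v₀ * z₀) = z₀ * (v₀ * star v₀ * z₀) := by noncomm_ring
      _ = (z₀ * z₀) * p₀ := by rw [← hp0def, ← hz0c]; noncomm_ring
      _ = _ := by rw [hz0.2]
  · rw [← mul_assoc, hz40, zero_mul]
  · rw [hyy, star_mul, hz0.1]
    calc star v₀ * z₀ * (z₀ * v₀) + z₀ * r₀ = star v₀ * (z₀ * z₀) * v₀ + z₀ * r₀ := by
          noncomm_ring
      _ = (star v₀ * z₀) * v₀ + z₀ * r₀ := by rw [hz0.2]
      _ = z₀ * q + z₀ * r₀ := by rw [← hz0c, hqdef]; noncomm_ring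
      _ = 1 - z₀ * p₀ - (1 - z₀) := by rw [hr0def]; noncomm_ring
  · refine pi_norm (q := z₀ * q) ?_ (prj_cent_mul hz0 hz0c hq)
    rw [star_mul, hz0.1]
    calc star v₀ * z₀ * (z₀ * v₀) = star v₀ * (z₀ * z₀) * v₀ := by noncomm_ring
      _ = (star v₀ * z₀) * v₀ := by rw [hz0.2]
      _ = _ := by rw [← hz0c, hqdef]; noncomm_ring
  · rw [← norm_star]
    refine pi_norm (q := z₀ * r₀) ?_ (prj_cent_mul hz0 hz0c hr0)
    rw [star_star, hyy]
  · intro p hp
    have hp4 : IsPrj ((1 - z₀) * p) := prj_cent_mul hh4 hh4c hp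
    refine ⟨hp4, ?_⟩
    have hrp : r₀ * ((1 - z₀) * p) = (1 - z₀) * p := by
      rw [← mul_assoc, ← hh4c, h4r]
    obtain ⟨z₃, hz3, hz3c, hz3e⟩ := hab _ hp4 hrp
    have e1 : (1 - z₀) * p = (1 - z₀) * z₃ := by
      calc (1 - z₀) * p = (1 - z₀) * ((1 - z₀) * p) := by rw [← mul_assoc, hh4.2]
        _ = (1 - z₀) * (z₃ * r₀) := by rw [hz3e]
        _ = ((1 - z₀) * r₀) * z₃ := by rw [hz3c, mul_assoc]
        _ = _ := by rw [h4r]
    intro x
    rw [e1, mul_assoc, hz3c, ← mul_assoc, hh4c, mul_assoc]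

end TH140.KC
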