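import Mathlib
import Pool.Agent.TH140.KC.JVN

/-!
The linear span of the projections is dense in a von Neumann algebra.
-/

set_option autoImplicit false

open scoped ComplexOrder

noncomputable section

namespace TH140.KC

open H711R2.KG

universe u

variable {M : Type u} [CStarAlgebra M] [PartialOrder M] [StarOrderedRing M]

theorem prj_nonneg {p : M} (hp : IsPrj p) : 0 ≤ p := by
  have := star_mul_self_nonneg p
  rwa [hp.1, hp.2] at this

theorem dens_step (hM : IsVN M) : ∀ (n : ℕ) (p a : M) (α β : ℝ), IsPrj p → IsSelfAdjoint a →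
    p * a = a → α ≤ β → α • p ≤ a → a ≤ β • p →
    ∃ x ∈ Submodule.span ℝ {p : M | IsPrj p}, -(((β - α) / 2 ^ n) • p) ≤ a - x ∧
      a - x ≤ ((β - α) / 2 ^ n) • p := by
  intro n
  induction n with
  | zero =>
    intro p a α β hp ha hpa hαβ h1 h2
    refine ⟨α • p, Submodule.smul_mem _ _ (Submodule.subset_span hp), ?_, ?_⟩
    · rw [pow_zero, div_one]
      have e1 : (0 : M) ≤ (β - α) • p := smul_nonneg (sub_nonneg.2 hαβ) (prj_nonneg hp)
      have e2 : (0 : M) ≤ a - α • p := sub_nonneg.2 h1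
      exact (neg_nonpos.2 e1).trans e2
    · rw [pow_zero, div_one, sub_smul]
      exact sub_le_sub_right h2 _
  | succ n ih =>
    intro p a α β hp ha hpa hαβ h1 h2
    have hap : a * p = a := by
      have := congrArg star hpa
      rwa [star_mul, hp.1, ha.star_eq] at this
    obtain ⟨p₁, hp1, hpp1, hcom, hlo, hup⟩ := hM.spec p hp a ha hpa ((α + β) / 2)
    have hp1p : p₁ * p = p₁ := by
      have := congrArg star hpp1
      rwa [star_mul, hp.1, hp1.1] at this
    set p₂ := p - p₁ with hp2def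
    have hp2 : IsPrj p₂ := prj_sub hp hp1 hpp1
    have hpp2 : p * p₂ = p₂ := by rw [hp2def, mul_sub, hp.2, hpp1]
    have hcom2 : p₂ * a = a * p₂ := by
      rw [hp2def, sub_mul, mul_sub, hpa, hap, hcom]
    clear_value p₂
    have s1 : IsSelfAdjoint (p₁ * a) := by
      rw [isSelfAdjoint_iff, star_mul, ha.star_eq, hp1.1, hcom]
    have s2 : IsSelfAdjoint (p₂ * a) := by
      rw [isSelfAdjoint_iff, star_mul, ha.star_eq, hp2.1, hcom2]
    have q1 : p₁ * (p₁ * a) = p₁ * a := by rw [← mul_assoc, hp1.2]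
    have q2 : p₂ * (p₂ * a) = p₂ * a := by rw [← mul_assoc, hp2.2]
    have u1 : p₁ * a ≤ β • p₁ := by
      have h3 := star_left_conjugate_nonneg (sub_nonneg.2 h2) p₁
      have e1 : star p₁ * (β • p - a) * p₁ = β • p₁ - p₁ * a := by
        rw [hp1.1, mul_sub, sub_mul, mul_smul_comm, hp1p, smul_mul_assoc, hp1.2, mul_assoc,
          ← hcom, q1]
      rw [e1] at h3
      exact sub_nonneg.1 h3
    have l2 : α • p₂ ≤ p₂ * a := by
      have h3 := star_left_conjugate_nonneg (sub_nonneg.2 h1) p₂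
      have hp2p : p₂ * p = p₂ := by
        have := congrArg star hpp2
        rwa [star_mul, hp.1, hp2.1] at this
      have e1 : star p₂ * (a - α • p) * p₂ = p₂ * a - α • p₂ := by
        rw [hp2.1, mul_sub, sub_mul, mul_smul_comm, hp2p, smul_mul_assoc, hp2.2, mul_assoc,
          ← hcom2, q2]
      rw [e1] at h3
      exact sub_nonneg.1 h3
    obtain ⟨x₁, hx1, a1, b1⟩ := ih p₁ (p₁ * a) ((α + β) / 2) β hp1 s1 q1 (by linarith) hlo u1
    obtain ⟨x₂, hx2, a2, b2⟩ := ih p₂ (p₂ * a) α ((α + β) / 2) hp2 s2 q2 (by linarith) l2 hup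
    have hd : (β - (α + β) / 2) / 2 ^ n = (β - α) / 2 ^ (n + 1) := by
      rw [pow_succ]; field_simp; ring
    have hd2 : ((α + β) / 2 - α) / 2 ^ n = (β - α) / 2 ^ (n + 1) := by
      rw [pow_succ]; field_simp; ring
    rw [hd] at a1 b1
    rw [hd2] at a2 b2
    have ea : a - (x₁ + x₂) = (p₁ * a - x₁) + (p₂ * a - x₂) := by
      have : a = p₁ * a + p₂ * a := by rw [← add_mul, hp2def, add_sub_cancel, hpa]
      nth_rewrite 1 [this]
      abel
    have ep : p = p₁ + p₂ := by rw [hp2def, add_sub_cancel]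
    refine ⟨x₁ + x₂, Submodule.add_mem _ hx1 hx2, ?_, ?_⟩
    · rw [ea, ep, smul_add, neg_add]
      exact add_le_add a1 a2
    · rw [ea, ep, smul_add]
      exact add_le_add b1 b2

/-- Self-adjoint elements are limits of real combinations of projections. -/
theorem dens_sa (hM : IsVN M) (a : M) (ha : IsSelfAdjoint a) (ε : ℝ) (hε : 0 < ε) :
    ∃ x ∈ Submodule.span ℝ {p : M | IsPrj p}, ‖a - x‖ ≤ ε := by
  have h1 : IsPrj (1 : M) := ⟨star_one M, mul_one 1⟩
  obtain ⟨n, hn⟩ : ∃ n : ℕ, 3 * ((‖a‖ - -‖a‖) / 2 ^ n) < ε := by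
    obtain ⟨n, hn⟩ := exists_pow_lt_of_lt_one (show 0 < ε / (6 * ‖a‖ + 1) by positivity)
      (show (1 / 2 : ℝ) < 1 by norm_num)
    refine ⟨n, ?_⟩
    rw [lt_div_iff₀ (by positivity)] at hn
    have h2 : (1 / 2 : ℝ) ^ n = 1 / 2 ^ n := by rw [div_pow, one_pow]
    rw [h2] at hn
    have h3 : 3 * ((‖a‖ - -‖a‖) / 2 ^ n) = 1 / 2 ^ n * (6 * ‖a‖) := by ring
    rw [h3]
    have h4 : (0 : ℝ) < 1 / 2 ^ n := by positivity
    nlinarith
  have hlo : (-‖a‖) • (1 : M) ≤ a := by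
    have := ha.neg_algebraMap_norm_le_self
    rwa [Algebra.algebraMap_eq_smul_one, ← neg_smul] at this
  have hup : a ≤ ‖a‖ • (1 : M) := by
    have := ha.le_algebraMap_norm_self
    rwa [Algebra.algebraMap_eq_smul_one] at this
  obtain ⟨x, hx, h2, h3⟩ := dens_step hM n 1 a (-‖a‖) ‖a‖ h1 ha (one_mul a)
    (by linarith [norm_nonneg a]) hlo hup
  refine ⟨x, hx, ?_⟩
  set δ := (‖a‖ - -‖a‖) / 2 ^ n with hδ
  have hδ0 : 0 ≤ δ := by
    rw [hδ]
    have : 0 ≤ ‖a‖ - -‖a‖ := by linarith [norm_nonneg a]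
    positivity
  have h4 : 0 ≤ a - x + δ • (1 : M) := by
    rw [← sub_neg_eq_add]
    exact sub_nonneg.2 h2
  have h5 : a - x + δ • (1 : M) ≤ algebraMap ℝ M (2 * δ) := by
    rw [Algebra.algebraMap_eq_smul_one, two_mul, add_smul]
    exact add_le_add_left h3 _
  have h6 : ‖a - x + δ • (1 : M)‖ ≤ 2 * δ :=
    (CStarAlgebra.norm_le_iff_le_algebraMap _ (by positivity) h4).2 h5
  have h7 : ‖δ • (1 : M)‖ ≤ δ := by
    rw [norm_smul, Real.norm_of_nonneg hδ0]
    have : ‖(1 : M)‖ ≤ 1 := prj_norm h1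
    nlinarith
  calc ‖a - x‖ = ‖(a - x + δ • (1 : M)) - δ • (1 : M)‖ := by rw [add_sub_cancel_right]
    _ ≤ ‖a - x + δ • (1 : M)‖ + ‖δ • (1 : M)‖ := norm_sub_le _ _
    _ ≤ ε := by linarith

end TH140.KC
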