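import Mathlib
import Pool.Agent.H593R2.Kad7.Hext

/-!
Extension of a bounded Jordan homomorphism to the generated von Neumann algebra (adapted from the
starting file for homomorphisms).
-/

set_option autoImplicit false

open scoped ComplexOrder InnerProductSpace
open Filter

noncomputable section

namespace TH140.KC

open H759R2.Kad H770R2.Kad H770R2.Kad.AXEXT H770R2.Kad.AHEXT

theorem ext_jordan (h1 : G_net.{0, 0}) (A : Type) [CStarAlgebra A]
    (H : Type) [NormedAddCommGroup H] [InnerProductSpace ℂ H] [CompleteSpace H]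
    (w : A →ₗ[ℂ] (H →L[ℂ] H)) (hsq : ∀ a, w (a * a) = w a * w a) (hone : w 1 = 1)
    (c : ℝ) (hc : 0 ≤ c) (hwc : ∀ a, ‖w a‖ ≤ c * ‖a‖)
    (L : Type) [NormedAddCommGroup L] [InnerProductSpace ℂ L] [CompleteSpace L]
    (π : A →⋆ₐ[ℂ] (L →L[ℂ] L))
    (hctrl : ∀ ξ : H, ∃ p q : L, ∀ a, ‖w a ξ‖ ≤ ‖π a p‖ + ‖π (star a) q‖) :
    ∃ (M : VonNeumannAlgebra L) (θ : A →⋆ₐ[ℂ] M.toStarSubalgebra)
      (W : M.toStarSubalgebra →ₗ[ℂ] (H →L[ℂ] H)), (∀ x, W (x * x) = W x * W x) ∧ W 1 = 1 ∧
      (∀ x, ‖W x‖ ≤ 2 * c * ‖x‖) ∧ ∀ a, W (θ a) = w a := by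
  classical
  -- the von Neumann algebra
  have hT : star (Set.centralizer (Set.range π)) = Set.centralizer (Set.range π) := by
    have h4 : ∀ y, y ∈ Set.centralizer (Set.range π) → star y ∈ Set.centralizer (Set.range π) := by
      intro y hy
      rw [Set.mem_centralizer_iff] at hy ⊢
      rintro _ ⟨a, rfl⟩
      have h5 := hy (π (star a)) ⟨star a, rfl⟩
      have h6 := congrArg star h5
      rw [star_mul, star_mul, map_star, star_star] at h6
      exact h6.symm
    ext y
    rw [Set.mem_star]
    constructor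
    · intro hy
      have := h4 _ hy
      rwa [star_star] at this
    · exact h4 y
  obtain ⟨M, hMmem⟩ : ∃ M : VonNeumannAlgebra L, ∀ x : L →L[ℂ] L, x ∈ M.toStarSubalgebra ↔
      ∀ y : L →L[ℂ] L, (∀ a, y * π a = π a * y) → y * x = x * y := by
    refine ⟨{ toStarSubalgebra := StarSubalgebra.centralizer ℂ (Set.centralizer (Set.range π))
              centralizer_centralizer' := by
                change Set.centralizer (Set.centralizer (Set.centralizer
                  (Set.centralizer (Set.range π) ∪ star (Set.centralizer (Set.range π))))) =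
                  Set.centralizer
                    (Set.centralizer (Set.range π) ∪ star (Set.centralizer (Set.range π)))
                exact Set.centralizer_centralizer_centralizer _ }, ?_⟩
    intro x
    change x ∈ Set.centralizer (Set.centralizer (Set.range π) ∪
      star (Set.centralizer (Set.range π))) ↔ _
    rw [hT, Set.union_self, Set.mem_centralizer_iff]
    constructor
    · intro h y hy
      refine h y ?_
      rw [Set.mem_centralizer_iff]
      rintro _ ⟨a, rfl⟩
      exact (hy a).symm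
    · intro h y hy
      refine h y (fun a => ?_)
      rw [Set.mem_centralizer_iff] at hy
      exact (hy (π a) ⟨a, rfl⟩).symm
  -- nets and limits
  have hnet : ∀ x : M.toStarSubalgebra, ∃ a : Ix L → A, Conv π a (x : L →L[ℂ] L) ∧
      ∀ i, ‖a i‖ ≤ 2 * ‖(x : L →L[ℂ] L)‖ := fun x =>
    h1 A L π x ((hMmem x).mp x.2)
  choose net hnet1 hnet2 using hnet
  have hbd : ∀ (x : M.toStarSubalgebra) (i : Ix L), ‖w (net x i)‖ ≤ 2 * c * ‖(x : L →L[ℂ] L)‖ := by
    intro x i
    calc ‖w (net x i)‖ ≤ c * ‖net x i‖ := hwc _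
      _ ≤ c * (2 * ‖(x : L →L[ℂ] L)‖) := mul_le_mul_of_nonneg_left (hnet2 x i) hc
      _ = 2 * c * ‖(x : L →L[ℂ] L)‖ := by ring
  have hlim : ∀ (x : M.toStarSubalgebra) (ξ : H), ∃ η : H,
      Tendsto (fun i => w (net x i) ξ) atTop (nhds η) := fun x ξ => exists_lim hctrl (hnet1 x) ξ
  choose E hE using hlim
  have key : ∀ (x : M.toStarSubalgebra) (b : Ix L → A), Conv π b (x : L →L[ℂ] L) → ∀ ξ : H,
      Tendsto (fun i => w (b i) ξ) atTop (nhds (E x ξ)) := by
    intro x b hb ξ
    have hcv : Conv π (fun i => b i + (-1 : ℂ) • net x i) 0 := by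
      have := conv_add hb (conv_smul (-1) (hnet1 x))
      rwa [neg_one_smul, add_neg_cancel] at this
    have h4 := null hctrl hcv ξ
    have h5 := h4.add (hE x ξ)
    rw [zero_add] at h5
    refine h5.congr (fun i => ?_)
    rw [map_add, map_smul, add_apply, smul_apply]
    module
  have uniq : ∀ (x : M.toStarSubalgebra) (ξ η : H) (b : Ix L → A),
      Conv π b (x : L →L[ℂ] L) → Tendsto (fun i => w (b i) ξ) atTop (nhds η) → E x ξ = η := by
    intro x ξ η b hb hF
    exact tendsto_nhds_unique (key x b hb ξ) hF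
  have hEbd : ∀ (x : M.toStarSubalgebra) (ξ : H), ‖E x ξ‖ ≤ 2 * c * ‖(x : L →L[ℂ] L)‖ * ‖ξ‖ := by
    intro x ξ
    refine le_of_tendsto (hE x ξ).norm (Eventually.of_forall fun i => ?_)
    exact ((w (net x i)).le_opNorm ξ).trans (mul_le_mul_of_nonneg_right (hbd x i) (norm_nonneg _))
  let E1 : M.toStarSubalgebra → (H →L[ℂ] H) := fun x =>
    LinearMap.mkContinuous
      { toFun := E x
        map_add' := by
          intro ξ η
          refine uniq x _ _ (net x) (hnet1 x) ?_
          refine ((hE x ξ).add (hE x η)).congr (fun i => ?_)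
          rw [map_add]
        map_smul' := by
          intro t ξ
          refine uniq x _ _ (net x) (hnet1 x) ?_
          refine ((hE x ξ).const_smul t).congr (fun i => ?_)
          rw [map_smul] } (2 * c * ‖(x : L →L[ℂ] L)‖) (hEbd x)
  have hE1 : ∀ x ξ, E1 x ξ = E x ξ := fun x ξ => rfl
  let E' : M.toStarSubalgebra →ₗ[ℂ] (H →L[ℂ] H) :=
    { toFun := E1
      map_add' := by
        intro x y
        ext ξ
        rw [hE1, add_apply, hE1, hE1]
        refine uniq (x + y) _ _ _ (conv_add (hnet1 x) (hnet1 y)) ?_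
        refine ((hE x ξ).add (hE y ξ)).congr (fun i => ?_)
        rw [map_add, add_apply]
      map_smul' := by
        intro t x
        ext ξ
        rw [RingHom.id_apply, smul_apply, hE1, hE1]
        refine uniq (t • x) _ _ _ (conv_smul t (hnet1 x)) ?_
        refine ((hE x ξ).const_smul t).congr (fun i => ?_)
        rw [map_smul, smul_apply] }
  have hE' : ∀ x ξ, E' x ξ = E x ξ := fun x ξ => rfl
  have hmem : ∀ a, π a ∈ M.toStarSubalgebra := by
    intro a
    rw [hMmem]
    intro y hy
    exact hy a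
  refine ⟨M, StarAlgHom.codRestrict π M.toStarSubalgebra hmem, E', ?_, ?_, ?_, ?_⟩
  · intro x
    ext ξ
    rw [mul_apply_eq_comp, hE', hE', hE']
    refine uniq (x * x) _ _ _ (conv_mul (hnet1 x) (hnet1 x)) ?_
    have h4 := tendsto_app (T := fun i => w (net x i)) (x := E' x) (hbd x) (fun ζ => hE x ζ)
      (hE x ξ)
    refine h4.congr (fun i => ?_)
    rw [hsq]
    rfl
  · ext ξ
    rw [hE']
    refine uniq 1 _ _ (fun _ => 1) ?_ ?_
    · have := conv_const (π := π) (1 : A)
      rw [map_one] at this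
      exact this
    · rw [hone]
      exact tendsto_const_nhds
  · intro x
    exact LinearMap.mkContinuous_norm_le _ (by positivity) (hEbd x)
  · intro a
    ext ξ
    rw [hE']
    exact uniq (StarAlgHom.codRestrict π M.toStarSubalgebra hmem a) _ _ (fun _ => a)
      (conv_const a) tendsto_const_nhds

end TH140.KC
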