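import Mathlib
import Pool.Agent.H770R2.Kad.HAsm
import Pool.Agent.TH140.KC.JDen
import Pool.Agent.TH140.KC.JExt

/-!
Splitting of bounded Jordan homomorphisms of von Neumann algebras.
-/

set_option autoImplicit false

open scoped ComplexOrder ComplexStarModule

noncomputable section

namespace TH140.KC

open H711R2.KG

section

variable {M : Type} [CStarAlgebra M] {H : Type} [NormedAddCommGroup H] [InnerProductSpace ℂ H]
  [CompleteSpace H]

theorem jhom_of (W : M →ₗ[ℂ] (H →L[ℂ] H)) (hsq : ∀ x, W (x * x) = W x * W x) (hone : W 1 = 1) :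
    JHom W.toAddMonoidHom := by
  refine ⟨hsq, hone, fun b hb => ?_⟩
  have h2 : (2 : ℂ) • b = 0 := by rw [two_smul, hb]
  exact (smul_eq_zero.1 h2).resolve_left two_ne_zero

variable [PartialOrder M] [StarOrderedRing M]

theorem hom4 (hM : IsVN M) (W : M →ₗ[ℂ] (H →L[ℂ] H)) (h : JHom W.toAddMonoidHom) (C : ℝ)
    (hC : 0 ≤ C) (hb : ∀ x, ‖W x‖ ≤ C * ‖x‖) {e e₄ v y : M} (d : VD e e₄ v y) (r s : M) :
    W (e₄ * (r * s)) = W (e₄ * r) * W s := by
  have hn4 : ‖e₄‖ ≤ 1 := prj_norm d.h4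
  -- the linear map which should vanish
  let Φ : M →ₗ[ℂ] (H →L[ℂ] H) :=
    { toFun := fun r => W (e₄ * (r * s)) - W (e₄ * r) * W s
      map_add' := by
        intro r r'
        rw [add_mul, mul_add, mul_add, map_add, map_add, add_mul]
        abel
      map_smul' := by
        intro t r
        rw [RingHom.id_apply, smul_mul_assoc, mul_smul_comm, mul_smul_comm, map_smul, map_smul,
          smul_mul_assoc, smul_sub] }
  have hΦ : ∀ r, Φ r = W (e₄ * (r * s)) - W (e₄ * r) * W s := fun r => rfl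
  have hΦb : ∀ r, ‖Φ r‖ ≤ (C * ‖s‖ + C * (C * ‖s‖)) * ‖r‖ := by
    intro r
    rw [hΦ]
    have n1 : ‖W (e₄ * (r * s))‖ ≤ C * (‖r‖ * ‖s‖) := by
      refine (hb _).trans (mul_le_mul_of_nonneg_left ?_ hC)
      calc ‖e₄ * (r * s)‖ ≤ ‖e₄‖ * (‖r‖ * ‖s‖) := (norm_mul_le _ _).trans
            (mul_le_mul_of_nonneg_left (norm_mul_le _ _) (norm_nonneg _))
        _ ≤ 1 * (‖r‖ * ‖s‖) := mul_le_mul_of_nonneg_right hn4 (by positivity)
        _ = _ := one_mul _
    have n2 : ‖W (e₄ * r)‖ ≤ C * ‖r‖ := by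
      refine (hb _).trans (mul_le_mul_of_nonneg_left ?_ hC)
      calc ‖e₄ * r‖ ≤ ‖e₄‖ * ‖r‖ := norm_mul_le _ _
        _ ≤ 1 * ‖r‖ := mul_le_mul_of_nonneg_right hn4 (norm_nonneg _)
        _ = _ := one_mul _
    calc ‖W (e₄ * (r * s)) - W (e₄ * r) * W s‖ ≤ ‖W (e₄ * (r * s))‖ + ‖W (e₄ * r) * W s‖ :=
          norm_sub_le _ _
      _ ≤ C * (‖r‖ * ‖s‖) + (C * ‖r‖) * (C * ‖s‖) := add_le_add n1
          ((norm_mul_le _ _).trans (mul_le_mul n2 (hb s) (norm_nonneg _) (by positivity)))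
      _ = _ := by ring
  have hprj : ∀ p, IsPrj p → Φ p = 0 := by
    intro p hp
    obtain ⟨h1, h2⟩ := d.ab p hp
    have h3 := (h.cent h1.2 h2 s).1
    rw [hΦ, ← mul_assoc]
    exact sub_eq_zero.2 h3
  have hspan : ∀ x ∈ Submodule.span ℝ {p : M | IsPrj p}, Φ x = 0 := by
    intro x hx
    induction hx using Submodule.span_induction with
    | mem x hx => exact hprj x hx
    | zero => exact map_zero Φ
    | add x y _ _ h1 h2 => rw [map_add, h1, h2, add_zero]
    | smul t x _ h1 => rw [LinearMap.map_smul_of_tower, h1, smul_zero]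
  have hsa : ∀ a, IsSelfAdjoint a → Φ a = 0 := by
    intro a ha
    set K := C * ‖s‖ + C * (C * ‖s‖) with hK
    have hK0 : 0 ≤ K := by positivity
    rw [← norm_le_zero_iff]
    refine le_of_forall_pos_le_add fun ε hε => ?_
    obtain ⟨x, hx, hax⟩ := dens_sa hM a ha (ε / (K + 1)) (by positivity)
    have e1 : Φ a = Φ (a - x) := by rw [map_sub, hspan x hx, sub_zero]
    rw [e1, zero_add]
    calc ‖Φ (a - x)‖ ≤ K * ‖a - x‖ := hΦb _
      _ ≤ K * (ε / (K + 1)) := mul_le_mul_of_nonneg_left hax hK0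
      _ ≤ ε := by
        rw [mul_div_assoc', div_le_iff₀ (by positivity)]
        nlinarith
  have hall : Φ r = 0 := by
    have e1 := realPart_add_I_smul_imaginaryPart r
    rw [← e1, map_add, map_smul, hsa _ (ℜ r).2, hsa _ (ℑ r).2, smul_zero, add_zero]
  exact sub_eq_zero.1 hall

theorem sd_of (hM : IsVN M) (W : M →ₗ[ℂ] (H →L[ℂ] H)) (h : JHom W.toAddMonoidHom) (C : ℝ)
    (hC : 0 ≤ C) (hb : ∀ x, ‖W x‖ ≤ C * ‖x‖) {e e₄ v y : M} (d : VD e e₄ v y) :
    SD W.toAddMonoidHom e e₄ v (star v) v (star y) (star v) y := by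
  have b1 : BY e (star v) := by
    constructor
    · have := congrArg star d.hv.1
      rwa [star_mul, d.he.1] at this
    · have := congrArg star d.hv.2
      rwa [star_mul, d.he.1, star_zero] at this
  have b2 : BX e (star y) := by
    constructor
    · have := congrArg star d.hy.1
      rwa [star_mul, d.he.1] at this
    · have := congrArg star d.hy.2
      rwa [star_mul, d.he.1, star_zero] at this
  exact ⟨d.he.2, d.hv, b1, d.hvv, d.h4.2, d.c4, d.h4e, d.hv, b2, b1, d.hy, d.sum,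
    fun r s => hom4 hM W h C hC hb d r s⟩

/-- The splitting of a bounded Jordan homomorphism of a von Neumann algebra. -/
theorem split_vn (hM : IsVN M) (W : M →ₗ[ℂ] (H →L[ℂ] H)) (hsq : ∀ x, W (x * x) = W x * W x)
    (hone : W 1 = 1) (C : ℝ) (hC : 1 ≤ C) (hb : ∀ x, ‖W x‖ ≤ C * ‖x‖) :
    ∃ f : H →L[ℂ] H, f * f = f ∧ ‖f‖ ≤ 4 * C ^ 4 ∧ (∀ r, f * W r = W r * f) ∧
      (∀ r s, f * W (r * s) = f * (W r * W s)) ∧
      ∀ r s, (1 - f) * W (r * s) = (1 - f) * (W s * W r) := by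
  have h := jhom_of W hsq hone
  have hC0 : 0 ≤ C := by linarith
  obtain ⟨e, e₄, v, y, d⟩ := exists_data hM
  have sd := sd_of hM W h C hC0 hb d
  refine ⟨_, sd.idem h, ?_, fun r => sd.comm h r, fun r s => sd.ll h r s, fun r s => sd.lr h r s⟩
  have nb : ∀ x : M, ‖x‖ ≤ 1 → ‖W x‖ ≤ C := fun x hx => (hb x).trans
    (by nlinarith [norm_nonneg x])
  have n1 : ‖W e‖ ≤ C := nb e (prj_norm d.he)
  have n2 : ‖W e₄‖ ≤ C := nb e₄ (prj_norm d.h4)
  have n3 : ‖W v‖ ≤ C := nb v d.nv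
  have n4 : ‖W (star v)‖ ≤ C := nb _ (by rw [norm_star]; exact d.nv)
  have n5 : ‖W y‖ ≤ C := nb y d.ny
  have n6 : ‖W (star y)‖ ≤ C := nb _ (by rw [norm_star]; exact d.ny)
  have m2 : ∀ (a b : H →L[ℂ] H) (p q : ℝ), 0 ≤ p → ‖a‖ ≤ p → ‖b‖ ≤ q → ‖a * b‖ ≤ p * q :=
    fun a b p q hp h1 h2 => (norm_mul_le _ _).trans (mul_le_mul h1 h2 (norm_nonneg _) hp)
  change ‖W e * W v * W (star v) * W e + (W (star v) * W e * W v + W y * W e * W (star y)) +
    W e₄‖ ≤ 4 * C ^ 4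
  have k1 : ‖W e * W v * W (star v) * W e‖ ≤ C * C * C * C :=
    m2 _ _ _ _ (by positivity) (m2 _ _ _ _ (by positivity) (m2 _ _ _ _ hC0 n1 n3) n4) n1
  have k2 : ‖W (star v) * W e * W v‖ ≤ C * C * C :=
    m2 _ _ _ _ (by positivity) (m2 _ _ _ _ hC0 n4 n1) n3
  have k3 : ‖W y * W e * W (star y)‖ ≤ C * C * C :=
    m2 _ _ _ _ (by positivity) (m2 _ _ _ _ hC0 n5 n1) n6
  have t1 := norm_add_le (W e * W v * W (star v) * W e +
    (W (star v) * W e * W v + W y * W e * W (star y))) (W e₄)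
  have t2 := norm_add_le (W e * W v * W (star v) * W e)
    (W (star v) * W e * W v + W y * W e * W (star y))
  have t3 := norm_add_le (W (star v) * W e * W v) (W y * W e * W (star y))
  have c1 : C ≤ C ^ 4 := le_self_pow₀ hC (by norm_num)
  have c3 : C * C * C ≤ C ^ 4 := by
    have : C * C * C = C ^ 3 := by ring
    rw [this]
    exact pow_le_pow_right₀ hC (by norm_num)
  have c4 : C * C * C * C = C ^ 4 := by ring
  linarith

end

section

variable {M : Type} [CStarAlgebra M] {H : Type} [NormedAddCommGroup H] [InnerProductSpace ℂ H]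
  [CompleteSpace H]

/-- The homomorphism of `M × Mᵐᵒᵖ` attached to the splitting. -/
def uu (W : M →ₗ[ℂ] (H →L[ℂ] H)) (hone : W 1 = 1) (f : H →L[ℂ] H) (hf : f * f = f)
    (hc : ∀ r, f * W r = W r * f) (h1 : ∀ r s, f * W (r * s) = f * (W r * W s))
    (h2 : ∀ r s, (1 - f) * W (r * s) = (1 - f) * (W s * W r)) :
    (M × Mᵐᵒᵖ) →ₐ[ℂ] (H →L[ℂ] H) :=
  AlgHom.ofLinearMap
    { toFun := fun x => f * W x.1 + (1 - f) * W x.2.unop
      map_add' := by
        intro x y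
        rw [Prod.fst_add, Prod.snd_add, MulOpposite.unop_add, map_add, map_add, mul_add, mul_add]
        abel
      map_smul' := by
        intro t x
        rw [Prod.smul_fst, Prod.smul_snd, MulOpposite.unop_smul, map_smul, map_smul,
          mul_smul_comm, mul_smul_comm, RingHom.id_apply, smul_add] }
    (by
      change f * W 1 + (1 - f) * W 1 = 1
      rw [hone]; noncomm_ring)
    (by
      intro x y
      change f * W (x.1 * y.1) + (1 - f) * W (y.2.unop * x.2.unop) =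
        (f * W x.1 + (1 - f) * W x.2.unop) * (f * W y.1 + (1 - f) * W y.2.unop)
      have hf1 : f * (1 - f) = 0 := by rw [mul_sub, mul_one, hf, sub_self]
      have hf2 : (1 - f) * f = 0 := by rw [sub_mul, one_mul, hf, sub_self]
      have hf3 : (1 - f) * (1 - f) = 1 - f := by rw [mul_sub, mul_one, hf2, sub_zero]
      have hc' : ∀ r, W r * (1 - f) = (1 - f) * W r := fun r => by
        rw [mul_sub, sub_mul, mul_one, one_mul, hc]
      rw [h1, h2]
      calc f * (W x.1 * W y.1) + (1 - f) * (W x.2.unop * W y.2.unop)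
          = (f * f) * W x.1 * W y.1 + (f * (1 - f)) * W x.1 * W y.2.unop +
            ((1 - f) * f) * W x.2.unop * W y.1 +
            ((1 - f) * (1 - f)) * W x.2.unop * W y.2.unop := by
            rw [hf, hf1, hf2, hf3]; simp [mul_assoc]
        _ = f * (f * W x.1) * W y.1 + f * ((1 - f) * W x.1) * W y.2.unop +
            (1 - f) * (f * W x.2.unop) * W y.1 +
            (1 - f) * ((1 - f) * W x.2.unop) * W y.2.unop := by simp only [mul_assoc]
        _ = f * (W x.1 * f) * W y.1 + f * (W x.1 * (1 - f)) * W y.2.unop +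
            (1 - f) * (W x.2.unop * f) * W y.1 +
            (1 - f) * (W x.2.unop * (1 - f)) * W y.2.unop := by
            rw [hc, hc', hc, hc']
        _ = _ := by simp only [mul_add, add_mul, mul_assoc]; abel)

theorem uu_apply (W : M →ₗ[ℂ] (H →L[ℂ] H)) (hone : W 1 = 1) (f : H →L[ℂ] H) (hf : f * f = f)
    (hc : ∀ r, f * W r = W r * f) (h1 : ∀ r s, f * W (r * s) = f * (W r * W s))
    (h2 : ∀ r s, (1 - f) * W (r * s) = (1 - f) * (W s * W r)) (x : M × Mᵐᵒᵖ) :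
    uu W hone f hf hc h1 h2 x = f * W x.1 + (1 - f) * W x.2.unop := rfl

theorem uu_norm (W : M →ₗ[ℂ] (H →L[ℂ] H)) (hone : W 1 = 1) (f : H →L[ℂ] H) (hf : f * f = f)
    (hc : ∀ r, f * W r = W r * f) (h1 : ∀ r s, f * W (r * s) = f * (W r * W s))
    (h2 : ∀ r s, (1 - f) * W (r * s) = (1 - f) * (W s * W r)) (C : ℝ) (hC : 1 ≤ C)
    (hb : ∀ x, ‖W x‖ ≤ C * ‖x‖) (hfn : ‖f‖ ≤ 4 * C ^ 4) (x : M × Mᵐᵒᵖ) :
    ‖uu W hone f hf hc h1 h2 x‖ ≤ 9 * C ^ 5 * ‖x‖ := by
  rw [uu_apply]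
  have hC0 : 0 ≤ C := by linarith
  have a1 : ‖W x.1‖ ≤ C * ‖x‖ := (hb _).trans
    (mul_le_mul_of_nonneg_left (norm_fst_le x) hC0)
  have a2 : ‖W x.2.unop‖ ≤ C * ‖x‖ := by
    refine (hb _).trans (mul_le_mul_of_nonneg_left ?_ hC0)
    rw [MulOpposite.norm_unop]
    exact norm_snd_le x
  have a3 : ‖(1 : H →L[ℂ] H)‖ ≤ 1 := by
    refine ContinuousLinearMap.opNorm_le_bound _ zero_le_one fun ζ => ?_
    rw [one_mul]
    exact le_rfl
  have a4 : ‖1 - f‖ ≤ 1 + 4 * C ^ 4 := (norm_sub_le _ _).trans (add_le_add a3 hfn)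
  have c1 : 1 ≤ C ^ 4 := one_le_pow₀ hC
  calc ‖f * W x.1 + (1 - f) * W x.2.unop‖ ≤ ‖f * W x.1‖ + ‖(1 - f) * W x.2.unop‖ :=
        norm_add_le _ _
    _ ≤ (4 * C ^ 4) * (C * ‖x‖) + (1 + 4 * C ^ 4) * (C * ‖x‖) := add_le_add
        ((norm_mul_le _ _).trans (mul_le_mul hfn a1 (norm_nonneg _) (by positivity)))
        ((norm_mul_le _ _).trans (mul_le_mul a4 a2 (norm_nonneg _) (by positivity)))
    _ ≤ (4 * C ^ 4) * (C * ‖x‖) + (C ^ 4 + 4 * C ^ 4) * (C * ‖x‖) := by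
        have : 0 ≤ C * ‖x‖ := by positivity
        nlinarith
    _ = _ := by ring

end

end TH140.KC
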