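import Mathlib
import Pool.Agent.TH140.KC.JFin
import Pool.Agent.TH140.KC.Cov

/-!
Renorming with respect to an idempotent commuting with the image.
-/

set_option autoImplicit false

open scoped InnerProductSpace

noncomputable section

namespace TH140.KC

variable {H : Type} [NormedAddCommGroup H] [InnerProductSpace ℂ H] [CompleteSpace H]

/-- A renorming making an idempotent orthogonal. -/
theorem exists_renorm (f : H →L[ℂ] H) (hf : f * f = f) (F : ℝ) (hF : 2 ≤ F) (hfn : ‖f‖ ≤ F) :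
    ∃ T : (H →L[ℂ] H)ˣ, ‖(T : H →L[ℂ] H)‖ ^ 2 ≤ 4 * F ^ 2 ∧
      ‖((T⁻¹ : (H →L[ℂ] H)ˣ) : H →L[ℂ] H)‖ ^ 2 ≤ 2 ∧
      ∀ x, ‖(T : H →L[ℂ] H) x‖ ^ 2 = ‖f x‖ ^ 2 + ‖(1 - f) x‖ ^ 2 := by
  set T₀ : H →L[ℂ] H := star f * f + star (1 - f) * (1 - f) with hT₀
  have hsa : IsSelfAdjoint T₀ := by
    rw [isSelfAdjoint_iff, hT₀, star_add, star_mul, star_mul, star_star, star_star]
  have hin : ∀ x, (⟪T₀ x, x⟫_ℂ).re = ‖f x‖ ^ 2 + ‖(1 - f) x‖ ^ 2 := by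
    intro x
    have e1 : T₀ x = (star f * f) x + (star (1 - f) * (1 - f)) x := rfl
    rw [e1, inner_add_left, inner_star_mul, inner_star_mul, Complex.add_re, re_inner_self,
      re_inner_self]
  have h1 : ∀ x, (1 / 2 : ℝ) * ‖x‖ ^ 2 ≤ (⟪T₀ x, x⟫_ℂ).re := by
    intro x
    rw [hin]
    have e : x = f x + (1 - f) x := by
      change x = f x + (x - f x)
      abel
    have h2 : ‖x‖ ≤ ‖f x‖ + ‖(1 - f) x‖ := by
      conv_lhs => rw [e]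
      exact norm_add_le _ _
    nlinarith [sq_nonneg (‖f x‖ - ‖(1 - f) x‖), norm_nonneg x, norm_nonneg (f x),
      norm_nonneg ((1 - f) x)]
  have h2 : ∀ x, (⟪T₀ x, x⟫_ℂ).re ≤ (4 * F ^ 2) * ‖x‖ ^ 2 := by
    intro x
    rw [hin]
    have a1 : ‖f x‖ ≤ F * ‖x‖ := (f.le_opNorm x).trans
      (mul_le_mul_of_nonneg_right hfn (norm_nonneg _))
    have a2 : ‖(1 - f) x‖ ≤ (1 + F) * ‖x‖ := by
      change ‖x - f x‖ ≤ _
      refine (norm_sub_le _ _).trans ?_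
      linarith
    have b1 : ‖f x‖ ^ 2 ≤ (F * ‖x‖) ^ 2 := pow_le_pow_left₀ (norm_nonneg _) a1 2
    have b2 : ‖(1 - f) x‖ ^ 2 ≤ ((1 + F) * ‖x‖) ^ 2 := pow_le_pow_left₀ (norm_nonneg _) a2 2
    have b3 : F ^ 2 + (1 + F) ^ 2 ≤ 4 * F ^ 2 := by nlinarith
    calc ‖f x‖ ^ 2 + ‖(1 - f) x‖ ^ 2 ≤ (F * ‖x‖) ^ 2 + ((1 + F) * ‖x‖) ^ 2 := add_le_add b1 b2
      _ = (F ^ 2 + (1 + F) ^ 2) * ‖x‖ ^ 2 := by ring
      _ ≤ _ := mul_le_mul_of_nonneg_right b3 (sq_nonneg _)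
  obtain ⟨T, hT, hT1, hT2⟩ := exists_root T₀ hsa (1 / 2) (4 * F ^ 2) (by norm_num) (by positivity)
    h1 h2
  refine ⟨T, hT1, ?_, fun x => ?_⟩
  · refine hT2.trans (by norm_num)
  · rw [← hin, ← hT, inner_star_mul, re_inner_self]

/-- Conjugation of an algebra homomorphism. -/
def cjAlg {R : Type} [Ring R] [Algebra ℂ R] (T : (H →L[ℂ] H)ˣ) (u : R →ₐ[ℂ] (H →L[ℂ] H)) :
    R →ₐ[ℂ] (H →L[ℂ] H) :=
  AlgHom.ofLinearMap
    { toFun := fun x => (T : H →L[ℂ] H) * u x * ((T⁻¹ : (H →L[ℂ] H)ˣ) : H →L[ℂ] H)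
      map_add' := by
        intro x y
        rw [map_add, mul_add, add_mul]
      map_smul' := by
        intro t x
        rw [map_smul, mul_smul_comm, smul_mul_assoc, RingHom.id_apply] }
    (by
      change (T : H →L[ℂ] H) * u 1 * ((T⁻¹ : (H →L[ℂ] H)ˣ) : H →L[ℂ] H) = 1
      rw [map_one, mul_one, Units.mul_inv])
    (by
      intro x y
      change (T : H →L[ℂ] H) * u (x * y) * ((T⁻¹ : (H →L[ℂ] H)ˣ) : H →L[ℂ] H) =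
        (T : H →L[ℂ] H) * u x * ((T⁻¹ : (H →L[ℂ] H)ˣ) : H →L[ℂ] H) *
          ((T : H →L[ℂ] H) * u y * ((T⁻¹ : (H →L[ℂ] H)ˣ) : H →L[ℂ] H))
      rw [map_mul]
      have h4 : ((T⁻¹ : (H →L[ℂ] H)ˣ) : H →L[ℂ] H) * (T : H →L[ℂ] H) = 1 := Units.inv_mul T
      calc (T : H →L[ℂ] H) * (u x * u y) * ((T⁻¹ : (H →L[ℂ] H)ˣ) : H →L[ℂ] H)
          = (T : H →L[ℂ] H) * u x * (((T⁻¹ : (H →L[ℂ] H)ˣ) : H →L[ℂ] H) * (T : H →L[ℂ] H)) *
            (u y * ((T⁻¹ : (H →L[ℂ] H)ˣ) : H →L[ℂ] H)) := by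
            rw [h4]; simp only [mul_one, mul_assoc]
        _ = _ := by simp only [mul_assoc])

theorem cjAlg_apply {R : Type} [Ring R] [Algebra ℂ R] (T : (H →L[ℂ] H)ˣ)
    (u : R →ₐ[ℂ] (H →L[ℂ] H)) (x : R) :
    cjAlg T u x = (T : H →L[ℂ] H) * u x * ((T⁻¹ : (H →L[ℂ] H)ˣ) : H →L[ℂ] H) := rfl

/-- In the renormed space the homomorphism of `A × Aᵐᵒᵖ` has the norm of `J`. -/
theorem cj_norm {A : Type} [CStarAlgebra A] (J : A →ₗ[ℂ] (H →L[ℂ] H)) (hone : J 1 = 1)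
    (f : H →L[ℂ] H) (hf : f * f = f) (hc : ∀ r, f * J r = J r * f)
    (h1 : ∀ r s, f * J (r * s) = f * (J r * J s))
    (h2 : ∀ r s, (1 - f) * J (r * s) = (1 - f) * (J s * J r)) (c : ℝ) (hc0 : 0 ≤ c)
    (hb : ∀ x, ‖J x‖ ≤ c * ‖x‖) (T : (H →L[ℂ] H)ˣ)
    (hT : ∀ x, ‖(T : H →L[ℂ] H) x‖ ^ 2 = ‖f x‖ ^ 2 + ‖(1 - f) x‖ ^ 2) (x : A × Aᵐᵒᵖ) :
    ‖cjAlg T (uu J hone f hf hc h1 h2) x‖ ≤ c * ‖x‖ := by
  refine ContinuousLinearMap.opNorm_le_bound _ (by positivity) fun ζ => ?_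
  set y := ((T⁻¹ : (H →L[ℂ] H)ˣ) : H →L[ℂ] H) ζ with hy
  have hTy : (T : H →L[ℂ] H) y = ζ := by
    rw [hy]
    change ((T : H →L[ℂ] H) * ((T⁻¹ : (H →L[ℂ] H)ˣ) : H →L[ℂ] H)) ζ = ζ
    rw [Units.mul_inv]; rfl
  have e0 : cjAlg T (uu J hone f hf hc h1 h2) x ζ =
      (T : H →L[ℂ] H) ((f * J x.1 + (1 - f) * J x.2.unop) y) := rfl
  have hc' : ∀ r, (1 - f) * J r = J r * (1 - f) := fun r => by
    rw [mul_sub, sub_mul, mul_one, one_mul, hc]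
  have hf1 : f * (1 - f) = 0 := by rw [mul_sub, mul_one, hf, sub_self]
  have hf2 : (1 - f) * f = 0 := by rw [sub_mul, one_mul, hf, sub_self]
  have hf3 : (1 - f) * (1 - f) = 1 - f := by rw [mul_sub, mul_one, hf2, sub_zero]
  have p1 : f ((f * J x.1 + (1 - f) * J x.2.unop) y) = J x.1 (f y) := by
    have : f * (f * J x.1 + (1 - f) * J x.2.unop) = J x.1 * f := by
      rw [mul_add, ← mul_assoc, ← mul_assoc, hf, hf1, zero_mul, add_zero, hc]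
    exact congrArg (fun S : H →L[ℂ] H => S y) this
  have p2 : (1 - f) ((f * J x.1 + (1 - f) * J x.2.unop) y) = J x.2.unop ((1 - f) y) := by
    have : (1 - f) * (f * J x.1 + (1 - f) * J x.2.unop) = J x.2.unop * (1 - f) := by
      rw [mul_add, ← mul_assoc, ← mul_assoc, hf3, hf2, zero_mul, zero_add, hc']
    exact congrArg (fun S : H →L[ℂ] H => S y) this
  have n1 : ‖J x.1 (f y)‖ ≤ c * ‖x‖ * ‖f y‖ := ((J x.1).le_opNorm _).trans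
    (mul_le_mul_of_nonneg_right ((hb _).trans
      (mul_le_mul_of_nonneg_left (norm_fst_le x) hc0)) (norm_nonneg _))
  have n2 : ‖J x.2.unop ((1 - f) y)‖ ≤ c * ‖x‖ * ‖(1 - f) y‖ := by
    refine ((J x.2.unop).le_opNorm _).trans (mul_le_mul_of_nonneg_right ((hb _).trans
      (mul_le_mul_of_nonneg_left ?_ hc0)) (norm_nonneg _))
    rw [MulOpposite.norm_unop]
    exact norm_snd_le x
  have hsq : ‖cjAlg T (uu J hone f hf hc h1 h2) x ζ‖ ^ 2 ≤ (c * ‖x‖ * ‖ζ‖) ^ 2 := by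
    rw [e0, hT, p1, p2]
    calc ‖J x.1 (f y)‖ ^ 2 + ‖J x.2.unop ((1 - f) y)‖ ^ 2
        ≤ (c * ‖x‖ * ‖f y‖) ^ 2 + (c * ‖x‖ * ‖(1 - f) y‖) ^ 2 := add_le_add
          (pow_le_pow_left₀ (norm_nonneg _) n1 2) (pow_le_pow_left₀ (norm_nonneg _) n2 2)
      _ = (c * ‖x‖) ^ 2 * (‖f y‖ ^ 2 + ‖(1 - f) y‖ ^ 2) := by ring
      _ = (c * ‖x‖) ^ 2 * ‖ζ‖ ^ 2 := by rw [← hT, hTy]
      _ = _ := by ring
  exact le_of_sq_le_sq hsq (by positivity)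

end TH140.KC
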